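import Mathlib

/-!
# Unit bar visibility number: definitions (MP_482ee1_co)
-/

set_option autoImplicit false

namespace MP_482ee1

/-- The bar with left end `b`: the horizontal closed segment of length `1` from `b` to
`b + (1, 0)`. -/
def seg (b : ℝ × ℝ) : Set (ℝ × ℝ) := Set.Icc b.1 (b.1 + 1) ×ˢ {b.2}

/-- In the arrangement whose bars have their left ends in `B`, the bars `b` and `c` see each other:
a vertical channel `[p, q] × [b.2, c.2]` of positive width `q - p` joins them and meets no other
bar of the arrangement. -/
def Sees (B : Set (ℝ × ℝ)) (b c : ℝ × ℝ) : Prop :=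
  ∃ p q : ℝ, p < q ∧ Set.Icc p q ×ˢ {b.2} ⊆ seg b ∧ Set.Icc p q ×ˢ {c.2} ⊆ seg c ∧
    ∀ d ∈ B, d ≠ b → d ≠ c → Disjoint (seg d) (Set.Icc p q ×ˢ Set.uIcc b.2 c.2)

/-- `S` is a `t`-unit-bar visibility representation of `G`: the vertex `v` is assigned the bars
with left ends in `S v`, at most `t` of them; all bars used are pairwise disjoint; and two distinct
vertices are adjacent exactly when some bar of the one and some bar of the other see each other. -/
structure IsRep {V : Type} (G : SimpleGraph V) (t : ℕ) (S : V → Finset (ℝ × ℝ)) : Prop where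
  card : ∀ v, (S v).card ≤ t
  disj : ∀ v w b c, b ∈ S v → c ∈ S w → (v, b) ≠ (w, c) → Disjoint (seg b) (seg c)
  adj : ∀ v w, v ≠ w →
    (G.Adj v w ↔ ∃ b ∈ S v, ∃ c ∈ S w, Sees {x | ∃ u, x ∈ S u} b c)

/-- `G` has a `t`-unit-bar visibility representation. -/
def HasRep {V : Type} (G : SimpleGraph V) (t : ℕ) : Prop := ∃ S : V → Finset (ℝ × ℝ), IsRep G t S

/-- The unit bar visibility number of `G`. -/
noncomputable def ub {V : Type} (G : SimpleGraph V) : ℕ := sInf {t : ℕ | 0 < t ∧ HasRep G t}

/-- `pos` is a straight-line drawing of `G` in the plane without crossings: distinct vertices are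
at distinct points, a vertex lies on the segment of an edge only if it is an end of that edge, and
a point common to the segments of two distinct edges is the position of a common end of them. -/
structure IsPlaneDrawing {V : Type} (G : SimpleGraph V) (pos : V → ℝ × ℝ) : Prop where
  inj : Function.Injective pos
  vertex : ∀ u v w, G.Adj u v → pos w ∈ segment ℝ (pos u) (pos v) → w = u ∨ w = v
  edge : ∀ u v x y, G.Adj u v → G.Adj x y → s(u, v) ≠ s(x, y) →
    ∀ q, q ∈ segment ℝ (pos u) (pos v) → q ∈ segment ℝ (pos x) (pos y) →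
      ∃ w, (w = u ∨ w = v) ∧ (w = x ∨ w = y) ∧ q = pos w

/-- `G` is planar: it has a straight-line drawing in the plane without crossings. -/
def Planar {V : Type} (G : SimpleGraph V) : Prop := ∃ pos : V → ℝ × ℝ, IsPlaneDrawing G pos

end MP_482ee1
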