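import Pool.Agent.R42.UB.Core

/-! MP_482ee1_co: exact statements of the tasks; the proofs are in `notes.md`. -/

set_option autoImplicit false

open Finset Classical

namespace MP_482ee1

noncomputable section

/-- number of edges with both ends in `W` -/
def eIn {V : Type} (G : SimpleGraph V) (W : Finset V) : ℕ :=
  {e : Sym2 V | e ∈ G.edgeSet ∧ ∀ x ∈ e, x ∈ W}.ncard

def dg {V : Type} [Fintype V] (G : SimpleGraph V) (v : V) : ℕ := (univ.filter (fun w => G.Adj v w)).card

/-- `O` is an orientation of `G` (`O v w`: the edge `vw` is directed from `v` to `w`) -/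
structure IsOrient {V : Type} (G : SimpleGraph V) (O : V → V → Prop) : Prop where
  adj : ∀ v w, G.Adj v w ↔ O v w ∨ O w v
  asym : ∀ v w, O v w → ¬ O w v

def outd {V : Type} [Fintype V] (O : V → V → Prop) (v : V) : ℕ := (univ.filter (fun w => O v w)).card

def ind {V : Type} [Fintype V] (O : V → V → Prop) (v : V) : ℕ := (univ.filter (fun x => O x v)).card

/-- number of special in-edges -/
def sp {V : Type} [Fintype V] (τ : V → Option V) (v : V) : ℕ :=
  (univ.filter (fun x => τ x = some v)).card

/-- number of in-edges handled by the root bars of `v` -/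
def mm {V : Type} [Fintype V] (O : V → V → Prop) (τ : V → Option V) (v : V) : ℕ :=
  if τ v = none then ind O v else max (ind O v - 2) (sp τ v)

/-- number of root bars of `v` -/
def RR {V : Type} [Fintype V] (O : V → V → Prop) (τ : V → Option V) (v : V) : ℕ :=
  (mm O τ v + 2) / 3

/-- the numerical scheme -/
structure Scheme {V : Type} [Fintype V] (G : SimpleGraph V) (O : V → V → Prop) (τ : V → Option V)
    (t : ℕ) : Prop where
  orient : IsOrient G O
  tau : ∀ v w, τ v = some w → O v w
  special : ∀ v, sp τ v ≤ 2 * RR O τ v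
  card : ∀ v, outd O v + RR O τ v ≤ t

/-- parent slot. Slots of a gadget: `2` root, its children `1, 3, 6`; children of `1`: `0, 5`;
children of `3`: `4, 7`. -/
def par : Fin 8 → Fin 8 := ![1, 2, 2, 2, 3, 1, 2, 3]

/-- a placement of bars (elements of `β`, the bar `b` belonging to the vertex `owner b`) in the
slots of gadgets (elements of `ι`) -/
structure Placement {V : Type} (G : SimpleGraph V) (t : ℕ) (β ι : Type)
    [Fintype β] (owner : β → V) (place : β → ι × Fin 8) : Prop where
  inj : Function.Injective place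
  up : ∀ b, (place b).2 ≠ 2 →
    ∃ b', place b' = ((place b).1, par (place b).2) ∧ G.Adj (owner b) (owner b')
  cover : ∀ v w, G.Adj v w → ∃ b b', (place b).2 ≠ 2 ∧
    place b' = ((place b).1, par (place b).2) ∧ s(owner b, owner b') = s(v, w)
  card : ∀ v, (univ.filter (fun b => owner b = v)).card ≤ t

/-- UB-GEOM -/
def St_geom : Prop :=
  ∀ (V : Type) (G : SimpleGraph V) (t : ℕ) (β ι : Type) (_ : Fintype β) (_ : Fintype ι)
    (owner : β → V) (place : β → ι × Fin 8), Placement G t β ι owner place → HasRep G t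

/-- UB-PLACE -/
def St_place : Prop :=
  ∀ (V : Type) (_ : Fintype V) (G : SimpleGraph V) (O : V → V → Prop) (τ : V → Option V) (t : ℕ),
    Scheme G O τ t → ∃ (β ι : Type) (_ : Fintype β) (_ : Fintype ι) (owner : β → V)
      (place : β → ι × Fin 8), Placement G t β ι owner place

/-- UB-ORIENT -/
def St_orient : Prop :=
  ∀ (V : Type) (_ : Fintype V) (G : SimpleGraph V) (k : ℕ), (∀ W : Finset V, eIn G W ≤ k * W.card) →
    ∃ O : V → V → Prop, IsOrient G O ∧ ∀ v, outd O v ≤ k

/-- UB-LARGE -/
def St_large : Prop :=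
  ∀ (V : Type) (_ : Fintype V) (G : SimpleGraph V) (D : ℕ), 6 ≤ D → (∀ v, dg G v ≤ D) →
    (∀ W : Finset V, eIn G W ≤ 3 * W.card) → ∃ (O : V → V → Prop) (τ : V → Option V),
      Scheme G O τ (D / 3 + 2)

/-- UB-SMALL -/
def St_small : Prop :=
  ∀ (V : Type) (_ : Fintype V) (G : SimpleGraph V), (∀ v, dg G v ≤ 5) →
    ∃ (O : V → V → Prop) (τ : V → Option V), Scheme G O τ 3

/-- UB-DUAL -/
def St_planar : Prop :=
  ∀ (V : Type) (_ : Fintype V) (G : SimpleGraph V), Planar G → ∀ W : Finset V, eIn G W ≤ 3 * W.card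

/-- final statement -/
def St_result : Prop :=
  ∀ (V : Type) [Fintype V] (G : SimpleGraph V) [DecidableRel G.Adj], Planar G →
    HasRep G (⌈((G.maxDegree : ℚ) + 1) / 3⌉₊ + 1) ∧
    ub G ≤ ⌈((G.maxDegree : ℚ) + 1) / 3⌉₊ + 1

end

end MP_482ee1
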