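import Pool.Agent.R42.UB.Defs
import Pool.Agent.H279R3.Drawing

/-!
# UB-DUAL: planar graphs have at most `3|W|` edges inside `W` (MP_482ee1_co)
-/

set_option autoImplicit false

namespace MP_482ee1

open Finset Classical H279R3

noncomputable section

namespace Dual

/-- The graph of the edges of `G` inside `W`. -/
def gr {V : Type} (G : SimpleGraph V) (W : Finset V) : SimpleGraph V where
  Adj u v := G.Adj u v ∧ u ∈ W ∧ v ∈ W
  symm := ⟨fun _ _ h => ⟨h.1.symm, h.2.2, h.2.1⟩⟩
  loopless := ⟨fun _ h => h.1.ne rfl⟩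

theorem gr_edgeSet {V : Type} (G : SimpleGraph V) (W : Finset V) :
    (gr G W).edgeSet = {e : Sym2 V | e ∈ G.edgeSet ∧ ∀ x ∈ e, x ∈ W} := by
  ext e
  induction e using Sym2.ind with
  | _ u v =>
    simp only [SimpleGraph.mem_edgeSet, Set.mem_ofPred_eq, Sym2.mem_iff, forall_eq_or_imp,
      forall_eq]
    rfl

theorem gr_drawing {V : Type} {G : SimpleGraph V} {pos : V → ℝ × ℝ} (h : IsPlaneDrawing G pos)
    (W : Finset V) : IsStraightDrawing (gr G W) pos := by
  refine ⟨h.inj.injOn, ?_⟩
  intro u v u' v' h1 h2 h3 p hp hp'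
  obtain ⟨w, hw1, hw2, hw3⟩ := h.edge u v u' v' h1.1 h2.1 h3 p hp hp'
  exact ⟨w, Sym2.mem_iff.2 hw1, Sym2.mem_iff.2 hw2, hw3⟩

/-- a nonempty even set of edges has at least three elements -/
theorem three_le {V : Type} {H : SimpleGraph V} {F : Set (Sym2 V)} (hF : EvenSet H F)
    (hfin : F.Finite) (hne : F.Nonempty) : 3 ≤ F.ncard := by
  have key : ∀ e ∈ F, ∀ v ∈ e, ∃ e' ∈ F, v ∈ e' ∧ e' ≠ e := by
    intro e he v hv
    by_contra hcon
    push Not at hcon
    have h1 : F ∩ {e | v ∈ e} = {e} := by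
      ext e'
      simp only [Set.mem_inter_iff, Set.mem_ofPred_eq, Set.mem_singleton_iff]
      constructor
      · rintro ⟨h1, h2⟩
        exact hcon e' h1 h2
      · rintro rfl
        exact ⟨he, hv⟩
    have h2 := hF.2 v
    rw [h1, Set.ncard_singleton] at h2
    exact absurd h2 (by decide)
  obtain ⟨e, he⟩ := hne
  induction e using Sym2.ind with
  | _ u v =>
    have hadj : H.Adj u v := hF.1 he
    obtain ⟨e1, h1, hu1, hne1⟩ := key _ he u (Sym2.mem_mk_left u v)
    obtain ⟨e2, h2, hv2, hne2⟩ := key _ he v (Sym2.mem_mk_right u v)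
    have h12 : e1 ≠ e2 := by
      rintro rfl
      exact hne1 ((Sym2.mem_and_mem_iff hadj.ne).1 ⟨hu1, hv2⟩)
    have hsub : ({s(u, v), e1, e2} : Set (Sym2 V)) ⊆ F := by
      intro e he'
      simp only [Set.mem_insert_iff, Set.mem_singleton_iff] at he'
      rcases he' with rfl | rfl | rfl
      · exact he
      · exact h1
      · exact h2
    have h3 : ({s(u, v), e1, e2} : Set (Sym2 V)).ncard = 3 :=
      Set.ncard_eq_three.2 ⟨_, _, _, hne1.symm, hne2.symm, h12, rfl⟩
    rw [← h3]
    exact Set.ncard_le_ncard hsub hfin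

theorem symmDiff_card_parity {α : Type} [DecidableEq α] (A B : Finset α) :
    ((symmDiff A B).card : ZMod 2) = A.card + B.card := by
  have h1 : (symmDiff A B).card + 2 * (A ∩ B).card = A.card + B.card := by
    have e1 : symmDiff A B = (A \ B) ∪ (B \ A) := rfl
    have e2 : Disjoint (A \ B) (B \ A) := by
      rw [disjoint_left]
      intro x hx hx'
      exact (mem_sdiff.1 hx).2 (mem_sdiff.1 hx').1
    rw [e1, card_union_of_disjoint e2]
    have e3 := card_sdiff_add_card_inter A B
    have e4 := card_sdiff_add_card_inter B A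
    rw [inter_comm B A] at e4
    omega
  have h2 := congrArg (Nat.cast : ℕ → ZMod 2) h1
  push_cast at h2
  have h3 : (2 : ZMod 2) = 0 := rfl
  rw [h3, zero_mul, add_zero] at h2
  exact h2

section main

variable {V K : Type} {H : SimpleGraph V} (E : Finset (Sym2 V)) (W : Finset V)

/-- odd vertices -/
def odd (F : Finset (Sym2 V)) : Finset V := W.filter (fun v => Odd (F.filter (v ∈ ·)).card)

theorem evenSet_of (hE : ∀ e, e ∈ E ↔ e ∈ H.edgeSet) (hW : ∀ e ∈ E, ∀ v ∈ e, v ∈ W)
    {F F' : Finset (Sym2 V)} (hF : F ⊆ E) (hF' : F' ⊆ E) (h : odd W F = odd W F') :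
    EvenSet H (↑(symmDiff F F') : Set (Sym2 V)) := by
  have hsub : symmDiff F F' ⊆ E := by
    intro e he
    rw [mem_symmDiff] at he
    rcases he with he | he
    · exact hF he.1
    · exact hF' he.1
  refine ⟨fun e he => (hE e).1 (hsub he), fun v => ?_⟩
  have h1 : (↑(symmDiff F F') : Set (Sym2 V)) ∩ {e | v ∈ e} =
      ↑((symmDiff F F').filter (v ∈ ·)) := by
    ext e
    simp only [Set.mem_inter_iff, mem_coe, Set.mem_ofPred_eq, mem_filter]
  rw [h1, Set.ncard_coe_finset]
  by_cases hv : v ∈ W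
  · have h2 : (symmDiff F F').filter (v ∈ ·) = symmDiff (F.filter (v ∈ ·)) (F'.filter (v ∈ ·)) := by
      ext e
      simp only [mem_filter, mem_symmDiff]
      tauto
    rw [h2, even_iff_zmod, symmDiff_card_parity]
    have h3 : Odd (F.filter (v ∈ ·)).card ↔ Odd (F'.filter (v ∈ ·)).card := by
      have := congrArg (fun S => v ∈ S) h
      simp only [odd, mem_filter, hv, true_and] at this
      exact iff_of_eq this
    rw [← Nat.cast_add, ← even_iff_zmod, Nat.even_add, ← Nat.not_odd_iff_even,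
      ← Nat.not_odd_iff_even, h3]
  · have h2 : (symmDiff F F').filter (v ∈ ·) = ∅ := by
      rw [filter_eq_empty_iff]
      intro e he hve
      exact hv (hW e (hsub he) v hve)
    rw [h2]
    simp

/-- the even subsets of `E` -/
def ev (H : SimpleGraph V) (E : Finset (Sym2 V)) : Finset (Finset (Sym2 V)) :=
  E.powerset.filter (fun F => EvenSet H (↑F : Set (Sym2 V)))

theorem count_even (hE : ∀ e, e ∈ E ↔ e ∈ H.edgeSet) (hW : ∀ e ∈ E, ∀ v ∈ e, v ∈ W) :
    2 ^ E.card ≤ (ev H E).card * 2 ^ W.card := by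
  have h := card_le_mul_card_image_of_maps_to (s := E.powerset) (t := W.powerset)
    (f := odd W) (fun F _ => mem_powerset.2 (filter_subset _ _)) (ev H E).card ?_
  · rwa [card_powerset, card_powerset] at h
  · intro U _
    rcases (E.powerset.filter (fun F => odd W F = U)).eq_empty_or_nonempty with h0 | ⟨F0, h0⟩
    · rw [h0]
      simp
    · rw [mem_filter, mem_powerset] at h0
      refine card_le_card_of_injOn (fun F => symmDiff F F0) ?_ ?_
      · intro F hF
        simp only [coe_filter, mem_powerset, Set.mem_ofPred_eq] at hF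
        simp only [ev, coe_filter, mem_powerset, Set.mem_ofPred_eq]
        refine ⟨?_, evenSet_of E W hE hW hF.1 h0.1 (hF.2.trans h0.2.symm)⟩
        intro e he
        rw [mem_symmDiff] at he
        rcases he with he | he
        · exact hF.1 he.1
        · exact h0.1 he.1
      · intro F _ F' _ hFF'
        exact symmDiff_left_injective F0 hFF'

variable (ends : Sym2 V → Sym2 K)

/-- dual vertices with nonempty star -/
def T (H : SimpleGraph V) (ends : Sym2 V → Sym2 K) : Set K := {x | (cut H ends {x}).Nonempty}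

theorem T_finite (hE : ∀ e, e ∈ E ↔ e ∈ H.edgeSet) : (T H ends).Finite := by
  have h : T H ends ⊆ ⋃ e ∈ (E : Set (Sym2 V)), {x | x ∈ ends e} := by
    rintro x ⟨e, he⟩
    obtain ⟨h1, ⟨z, hz, hz'⟩, -⟩ := he
    rw [Set.mem_singleton_iff] at hz'
    subst hz'
    simp only [Set.mem_iUnion]
    exact ⟨e, (hE e).2 h1, hz⟩
  refine Set.Finite.subset (Set.Finite.biUnion E.finite_toSet fun e _ => ?_) h
  obtain ⟨x, y, hxy⟩ := ends_cases ends e
  rw [hxy]
  refine Set.Finite.subset (Set.toFinite {x, y}) ?_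
  intro z hz
  rcases Sym2.mem_iff.1 hz with rfl | rfl
  · exact Or.inl rfl
  · exact Or.inr rfl

theorem cut_sub (A A' : Set K) (h : ∀ x ∈ T H ends, x ∈ A ↔ x ∈ A') :
    cut H ends A ⊆ cut H ends A' := by
  intro e he
  obtain ⟨x, y, hxy⟩ := ends_cases ends e
  rw [mem_cut_iff hxy] at he ⊢
  obtain ⟨h1, h2⟩ := he
  have hne : x ≠ y := by
    rintro rfl
    tauto
  have hx : x ∈ T H ends := ⟨e, (mem_cut_iff hxy _).2 ⟨h1, Or.inl ⟨rfl, fun h => hne h.symm⟩⟩⟩
  have hy : y ∈ T H ends := ⟨e, (mem_cut_iff hxy _).2 ⟨h1, Or.inr ⟨fun h => hne h, rfl⟩⟩⟩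
  have h3 := h x hx
  have h4 := h y hy
  refine ⟨h1, ?_⟩
  tauto

theorem count_cut (hE : ∀ e, e ∈ E ↔ e ∈ H.edgeSet)
    (heven : ∀ F : Set (Sym2 V), F.Finite → EvenSet H F → ∃ A : Set K, cut H ends A = F) :
    (ev H E).card ≤ 2 ^ (T_finite E ends hE).toFinset.card := by
  have h : ∀ F : Finset (Sym2 V), ∃ A : Set K, EvenSet H (↑F : Set (Sym2 V)) →
      cut H ends A = ↑F := by
    intro F
    by_cases hF : EvenSet H (↑F : Set (Sym2 V))
    · obtain ⟨A, hA⟩ := heven _ F.finite_toSet hF
      exact ⟨A, fun _ => hA⟩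
    · exact ⟨∅, fun h => absurd h hF⟩
  choose A hA using h
  rw [← card_powerset]
  refine card_le_card_of_injOn (fun F => (T_finite E ends hE).toFinset.filter (· ∈ A F)) ?_ ?_
  · intro F _
    simp only [coe_powerset, Set.mem_preimage, Set.mem_powerset_iff, coe_subset]
    exact filter_subset _ _
  · intro F hF F' hF' hFF'
    simp only [ev, coe_filter, mem_powerset, Set.mem_ofPred_eq] at hF hF'
    have h1 : ∀ x ∈ T H ends, x ∈ A F ↔ x ∈ A F' := by
      intro x hx
      have := congrArg (fun S => x ∈ S) hFF'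
      simp only [mem_filter, Set.Finite.mem_toFinset, hx, true_and] at this
      exact iff_of_eq this
    have h2 : cut H ends (A F) = cut H ends (A F') :=
      Set.Subset.antisymm (cut_sub ends _ _ h1) (cut_sub ends _ _ fun x hx => (h1 x hx).symm)
    rw [hA F hF.2, hA F' hF'.2] at h2
    exact_mod_cast h2

theorem count_T (hE : ∀ e, e ∈ E ↔ e ∈ H.edgeSet)
    (hcut : ∀ A : Set K, (cut H ends A).Finite → EvenSet H (cut H ends A)) :
    (T_finite E ends hE).toFinset.card * 3 ≤ E.card * 2 := by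
  refine card_mul_le_card_mul (fun x e => e ∈ cut H ends {x}) ?_ ?_
  · intro x hx
    rw [Set.Finite.mem_toFinset] at hx
    have h1 : (cut H ends {x}) ⊆ ↑E := fun e he => (hE e).2 he.1
    have h2 : (cut H ends {x}).Finite := E.finite_toSet.subset h1
    have h3 := three_le (hcut _ h2) h2 hx
    have h4 : (cut H ends {x}) =
        ↑(bipartiteAbove (fun x e => e ∈ cut H ends {x}) E x) := by
      ext e
      simp only [coe_bipartiteAbove, Set.mem_ofPred_eq]
      exact ⟨fun h => ⟨h1 h, h⟩, fun h => h.2⟩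
    rw [h4, Set.ncard_coe_finset] at h3
    exact h3
  · intro e _
    obtain ⟨x, y, hxy⟩ := ends_cases ends e
    refine (card_le_card (t := {x, y}) ?_).trans card_le_two
    intro z hz
    rw [mem_bipartiteBelow] at hz
    obtain ⟨-, -, ⟨w, hw, hw'⟩, -⟩ := hz
    rw [Set.mem_singleton_iff] at hw'
    subst hw'
    rw [hxy, Sym2.mem_iff] at hw
    rw [mem_insert, mem_singleton]
    exact hw

end main

end Dual

open MP_482ee1.Dual in
theorem planar_bound : St_planar := by
  rintro V _ G ⟨pos, hpos⟩ W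
  have hd := gr_drawing hpos W
  have hfin : (gr G W).edgeSet.Finite := Set.toFinite _
  obtain ⟨pos', h1, h2⟩ := exists_generic hfin pos hd
  obtain ⟨S⟩ := sweep_of_drawing h1 h2
  obtain ⟨K, ends, h3, h4⟩ := S.exists_ends hfin
  set E := hfin.toFinset with hEdef
  have hE : ∀ e, e ∈ E ↔ e ∈ (gr G W).edgeSet := fun e => hfin.mem_toFinset
  have hW : ∀ e ∈ E, ∀ v ∈ e, v ∈ W := by
    intro e he v hv
    rw [hE, gr_edgeSet] at he
    exact he.2 v hv
  have hm : eIn G W = E.card := by
    unfold eIn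
    rw [← gr_edgeSet, Set.ncard_eq_toFinset_card _ hfin]
  rw [hm]
  have c1 := count_even E W hE hW
  have c2 := count_cut E ends hE h4
  have c3 := count_T E ends hE h3
  have c4 : 2 ^ E.card ≤ 2 ^ ((T_finite E ends hE).toFinset.card + W.card) := by
    rw [pow_add]
    exact c1.trans (Nat.mul_le_mul_right _ c2)
  have c5 := (Nat.pow_le_pow_iff_right (by norm_num : 1 < 2)).1 c4
  omega

end

end MP_482ee1
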