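import Pool.Agent.R42.UB.Defs

set_option autoImplicit false

open Finset Classical

namespace MP_482ee1

noncomputable section

theorem HasRep.mono {V : Type} {G : SimpleGraph V} {s t : ℕ} (h : HasRep G s) (hst : s ≤ t) :
    HasRep G t := by
  obtain ⟨S, hS⟩ := h
  exact ⟨S, ⟨fun v => (hS.card v).trans hst, hS.disj, hS.adj⟩⟩

theorem deg_add {V : Type} [Fintype V] {G : SimpleGraph V} {O : V → V → Prop}
    (h : IsOrient G O) (v : V) : outd O v + ind O v = dg G v := by
  unfold outd ind dg
  rw [← card_union_of_disjoint]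
  · congr 1
    ext w
    simp only [mem_union, mem_filter, mem_univ, true_and]
    exact (h.adj v w).symm
  · rw [disjoint_left]
    intro w hw hw'
    exact h.asym _ _ (mem_filter.1 hw).2 (mem_filter.1 hw').2

/-- any orientation works for maximum degree at most two -/
theorem tiny {V : Type} [Fintype V] (G : SimpleGraph V) (ho : St_orient)
    (hd : ∀ v, dg G v ≤ 2) : ∃ (O : V → V → Prop) (τ : V → Option V), Scheme G O τ 2 := by
  obtain ⟨O, hO, -⟩ := ho V inferInstance G (eIn G univ) (by
    intro W
    rcases W.eq_empty_or_nonempty with rfl | hW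
    · have : {e : Sym2 V | e ∈ G.edgeSet ∧ ∀ x ∈ e, x ∈ (∅ : Finset V)} = ∅ := by
        ext e
        simp only [Set.mem_setOf_eq, Set.mem_empty_iff_false, iff_false, not_and]
        intro _ h
        induction e using Sym2.ind with
        | _ a b => exact absurd (h a (Sym2.mem_mk_left a b)) (notMem_empty a)
      unfold eIn
      rw [this]
      simp
    · have h1 : eIn G W ≤ eIn G univ := by
        unfold eIn
        apply Set.ncard_le_ncard _ (Set.toFinite _)
        rintro e ⟨h1, -⟩
        exact ⟨h1, fun x _ => mem_univ x⟩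
      have h2 : 1 ≤ W.card := hW.card_pos
      calc eIn G W ≤ eIn G univ * 1 := by rw [Nat.mul_one]; exact h1
        _ ≤ _ := Nat.mul_le_mul_left _ h2)
  refine ⟨O, fun _ => none, ⟨hO, fun v w h => by simp at h, ?_, ?_⟩⟩
  · intro v
    simp [sp]
  · intro v
    have h1 := deg_add hO v
    have h2 := hd v
    simp only [RR, mm, if_true]
    omega

theorem ceil3 (D : ℕ) : ⌈((D : ℚ) + 1) / 3⌉₊ = D / 3 + 1 := by
  rw [Nat.ceil_eq_iff (by omega)]
  have h1 : (D : ℚ) = 3 * (D / 3 : ℕ) + (D % 3 : ℕ) := by exact_mod_cast (Nat.div_add_mod D 3).symm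
  have h2 : ((D % 3 : ℕ) : ℚ) ≤ 2 := by exact_mod_cast (by omega : D % 3 ≤ 2)
  have h3 : (0 : ℚ) ≤ ((D % 3 : ℕ) : ℚ) := by positivity
  constructor
  · rw [lt_div_iff₀ (by norm_num)]
    have : ((D / 3 + 1 - 1 : ℕ) : ℚ) = (D / 3 : ℕ) := by simp
    rw [this]
    linarith
  · rw [div_le_iff₀ (by norm_num)]
    push_cast at *
    linarith

theorem final (hg : St_geom) (hp : St_place) (ho : St_orient) (hl : St_large) (hs : St_small)
    (hd : St_planar) : St_result := by
  intro V _ G _ hG
  have hdg : ∀ v, dg G v ≤ G.maxDegree := by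
    intro v
    refine le_trans (le_of_eq ?_) (G.degree_le_maxDegree v)
    unfold dg
    rw [← SimpleGraph.card_neighborFinset_eq_degree]
    congr 1
    ext w
    simp
  have main : HasRep G (G.maxDegree / 3 + 2) := by
    have key : ∀ t, (∃ (O : V → V → Prop) (τ : V → Option V), Scheme G O τ t) → HasRep G t := by
      rintro t ⟨O, τ, h⟩
      obtain ⟨β, ι, i1, i2, owner, pl, h2⟩ := hp V inferInstance G O τ t h
      exact hg V G t β ι i1 i2 owner pl h2
    rcases le_or_gt 6 G.maxDegree with h6 | h6
    · exact key _ (hl V inferInstance G G.maxDegree h6 hdg (hd V inferInstance G hG))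
    · rcases le_or_gt 3 G.maxDegree with h3 | h3
      · have h5 : ∀ v, dg G v ≤ 5 := fun v => (hdg v).trans (by omega)
        exact (key _ (hs V inferInstance G h5)).mono (by omega)
      · have h2 : ∀ v, dg G v ≤ 2 := fun v => (hdg v).trans (by omega)
        exact (key _ (tiny G ho h2)).mono (by omega)
  rw [ceil3]
  exact ⟨main, Nat.sInf_le ⟨by omega, main⟩⟩

end

end MP_482ee1
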