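import Pool.Agent.R42.UB.Defs

/-!
# MP_482ee1_co, piece UB-GEOM: a placement in gadgets gives a unit bar representation
-/

set_option autoImplicit false

open Finset Classical

namespace MP_482ee1

/-- Five times the abscissa of the left end in slot `s`. -/
def XX : Fin 8 → ℤ := ![0, 3, 6, 9, 12, 3, 6, 9]

/-- The height of slot `s`. -/
def YY : Fin 8 → ℤ := ![0, 1, 0, 1, 0, 2, -1, 2]

theorem XX_range : ∀ s, 0 ≤ XX s ∧ XX s ≤ 12 := by decide

theorem slots_disj : ∀ s s', s ≠ s' → YY s = YY s' → XX s + 5 < XX s' ∨ XX s' + 5 < XX s := by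
  decide

theorem slots_par : ∀ s, s ≠ 2 → (XX s < XX (par s) + 5 ∧ XX (par s) < XX s + 5) ∧
    (YY s = YY (par s) + 1 ∨ YY (par s) = YY s + 1) := by decide

theorem slots_see : ∀ s s', s ≠ s' → XX s < XX s' + 5 → XX s' < XX s + 5 → YY s ≠ YY s' →
    (s ≠ 2 ∧ s' = par s) ∨ (s' ≠ 2 ∧ s = par s') ∨
    (s ≠ 2 ∧ par s ≠ s' ∧ par s ≠ s ∧ XX (par s) = XX s ∧
      ((YY s ≤ YY (par s) ∧ YY (par s) ≤ YY s') ∨ (YY s' ≤ YY (par s) ∧ YY (par s) ≤ YY s))) ∨
    (s' ≠ 2 ∧ par s' ≠ s ∧ par s' ≠ s' ∧ XX (par s') = XX s' ∧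
      ((YY s ≤ YY (par s') ∧ YY (par s') ≤ YY s') ∨
        (YY s' ≤ YY (par s') ∧ YY (par s') ≤ YY s))) := by decide

/-- Position of the slot `s` of the gadget number `k`. -/
noncomputable def PP (k : ℤ) (s : Fin 8) : ℝ × ℝ := (((20 * k + XX s : ℤ) : ℝ) / 5, ((YY s : ℤ) : ℝ))

theorem mem_seg_PP (k : ℤ) (s : Fin 8) (x y : ℝ) :
    (x, y) ∈ seg (PP k s) ↔ ((20 * k + XX s : ℤ) : ℝ) ≤ 5 * x ∧
      5 * x ≤ ((20 * k + XX s : ℤ) : ℝ) + 5 ∧ y = (YY s : ℝ) := by
  unfold seg PP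
  rw [Set.mem_prod, Set.mem_Icc, Set.mem_singleton_iff]
  constructor
  · rintro ⟨⟨h1, h2⟩, h3⟩
    exact ⟨by linarith, by linarith, h3⟩
  · rintro ⟨h1, h2, h3⟩
    exact ⟨⟨by linarith, by linarith⟩, h3⟩

/-- Distinct slots which are at the same height are far apart. -/
theorem far (k k' : ℤ) (s s' : Fin 8) (h : (k, s) ≠ (k', s')) (hY : YY s = YY s') :
    20 * k + XX s + 5 < 20 * k' + XX s' ∨ 20 * k' + XX s' + 5 < 20 * k + XX s := by
  have h1 := XX_range s
  have h2 := XX_range s'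
  rcases lt_trichotomy k k' with hk | hk | hk
  · left; omega
  · subst hk
    have hs : s ≠ s' := fun hs => h (by rw [hs])
    rcases slots_disj s s' hs hY with h3 | h3
    · left; omega
    · right; omega
  · right; omega

theorem disj_PP (k k' : ℤ) (s s' : Fin 8) (h : (k, s) ≠ (k', s')) :
    Disjoint (seg (PP k s)) (seg (PP k' s')) := by
  rw [Set.disjoint_left]
  rintro ⟨x, y⟩ h1 h2
  rw [mem_seg_PP] at h1 h2
  have hY : YY s = YY s' := by exact_mod_cast h1.2.2.symm.trans h2.2.2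
  rcases far k k' s s' h hY with h3 | h3
  · have h4 : ((20 * k + XX s : ℤ) : ℝ) + 5 < ((20 * k' + XX s' : ℤ) : ℝ) := by exact_mod_cast h3
    linarith [h1.2.1, h2.1]
  · have h4 : ((20 * k' + XX s' : ℤ) : ℝ) + 5 < ((20 * k + XX s : ℤ) : ℝ) := by exact_mod_cast h3
    linarith [h1.1, h2.2.1]

theorem PP_inj (k k' : ℤ) (s s' : Fin 8) (h : PP k s = PP k' s') : (k, s) = (k', s') := by
  by_contra hne
  have h1 := disj_PP k k' s s' hne
  rw [h] at h1
  have h2 : PP k' s' ∈ seg (PP k' s') := by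
    unfold seg
    exact ⟨⟨le_rfl, by linarith⟩, rfl⟩
  exact Set.disjoint_left.1 h1 h2 h2

/-- A bar and its parent see each other. -/
theorem sees_par (B : Set (ℝ × ℝ)) (hB : ∀ d ∈ B, ∃ k s, d = PP k s) (k : ℤ) (s : Fin 8)
    (hs : s ≠ 2) : Sees B (PP k s) (PP k (par s)) := by
  obtain ⟨⟨h1, h2⟩, h3⟩ := slots_par s hs
  -- the common part of the two intervals
  refine ⟨((max (20 * k + XX s) (20 * k + XX (par s)) : ℤ) : ℝ) / 5,
    ((min (20 * k + XX s) (20 * k + XX (par s)) + 5 : ℤ) : ℝ) / 5, ?_, ?_, ?_, ?_⟩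
  · have h4 : max (20 * k + XX s) (20 * k + XX (par s)) <
        min (20 * k + XX s) (20 * k + XX (par s)) + 5 := by omega
    have h5 : ((max (20 * k + XX s) (20 * k + XX (par s)) : ℤ) : ℝ) <
        ((min (20 * k + XX s) (20 * k + XX (par s)) + 5 : ℤ) : ℝ) := by exact_mod_cast h4
    linarith
  · rintro ⟨x, y⟩ ⟨⟨hx1, hx2⟩, hy⟩
    rw [mem_seg_PP]
    have h4 : 20 * k + XX s ≤ max (20 * k + XX s) (20 * k + XX (par s)) := le_max_left _ _
    have h4' : ((20 * k + XX s : ℤ) : ℝ) ≤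
      ((max (20 * k + XX s) (20 * k + XX (par s)) : ℤ) : ℝ) := by exact_mod_cast h4
    have h5 : min (20 * k + XX s) (20 * k + XX (par s)) + 5 ≤ 20 * k + XX s + 5 := by omega
    have h5' : ((min (20 * k + XX s) (20 * k + XX (par s)) + 5 : ℤ) : ℝ) ≤
      ((20 * k + XX s : ℤ) : ℝ) + 5 := by exact_mod_cast h5
    exact ⟨by linarith, by linarith, hy⟩
  · rintro ⟨x, y⟩ ⟨⟨hx1, hx2⟩, hy⟩
    rw [mem_seg_PP]
    have h4 : 20 * k + XX (par s) ≤ max (20 * k + XX s) (20 * k + XX (par s)) := le_max_right _ _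
    have h4' : ((20 * k + XX (par s) : ℤ) : ℝ) ≤
      ((max (20 * k + XX s) (20 * k + XX (par s)) : ℤ) : ℝ) := by exact_mod_cast h4
    have h5 : min (20 * k + XX s) (20 * k + XX (par s)) + 5 ≤ 20 * k + XX (par s) + 5 := by omega
    have h5' : ((min (20 * k + XX s) (20 * k + XX (par s)) + 5 : ℤ) : ℝ) ≤
      ((20 * k + XX (par s) : ℤ) : ℝ) + 5 := by exact_mod_cast h5
    exact ⟨by linarith, by linarith, hy⟩
  · intro d hd hd1 hd2
    obtain ⟨k', s', rfl⟩ := hB d hd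
    rw [Set.disjoint_left]
    rintro ⟨x, y⟩ hx ⟨⟨hx1, hx2⟩, hy⟩
    rw [mem_seg_PP] at hx
    have h4 : ((20 * k + XX s : ℤ) : ℝ) ≤
      ((max (20 * k + XX s) (20 * k + XX (par s)) : ℤ) : ℝ) := by
      exact_mod_cast le_max_left _ _
    have h4' : ((20 * k + XX (par s) : ℤ) : ℝ) ≤
      ((max (20 * k + XX s) (20 * k + XX (par s)) : ℤ) : ℝ) := by
      exact_mod_cast le_max_right _ _
    have h5 : ((min (20 * k + XX s) (20 * k + XX (par s)) + 5 : ℤ) : ℝ) ≤
      ((20 * k + XX s : ℤ) : ℝ) + 5 := by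
      have : min (20 * k + XX s) (20 * k + XX (par s)) + 5 ≤ 20 * k + XX s + 5 := by omega
      exact_mod_cast this
    have h5' : ((min (20 * k + XX s) (20 * k + XX (par s)) + 5 : ℤ) : ℝ) ≤
      ((20 * k + XX (par s) : ℤ) : ℝ) + 5 := by
      have : min (20 * k + XX s) (20 * k + XX (par s)) + 5 ≤ 20 * k + XX (par s) + 5 := by omega
      exact_mod_cast this
    dsimp only at hx1 hx2 hy
    -- the height of `d` is one of the two heights
    have hYd : YY s' = YY s ∨ YY s' = YY (par s) := by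
      have hy' : ((YY s' : ℤ) : ℝ) ∈ Set.uIcc ((YY s : ℤ) : ℝ) ((YY (par s) : ℤ) : ℝ) := by
        rw [← hx.2.2]; exact hy
      rw [Set.mem_uIcc] at hy'
      have hy'' : (YY s ≤ YY s' ∧ YY s' ≤ YY (par s)) ∨ (YY (par s) ≤ YY s' ∧ YY s' ≤ YY s) := by
        rcases hy' with h | h
        · left; exact ⟨by exact_mod_cast h.1, by exact_mod_cast h.2⟩
        · right; exact ⟨by exact_mod_cast h.1, by exact_mod_cast h.2⟩
      omega
    rcases hYd with h | h
    · have hne : (k', s') ≠ (k, s) := fun he => hd1 (by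
        rw [(Prod.mk.inj he).1, (Prod.mk.inj he).2])
      rcases far k' k s' s hne h with h6 | h6
      · have h7 : ((20 * k' + XX s' : ℤ) : ℝ) + 5 < ((20 * k + XX s : ℤ) : ℝ) := by
          exact_mod_cast h6
        linarith [hx.2.1]
      · have h7 : ((20 * k + XX s : ℤ) : ℝ) + 5 < ((20 * k' + XX s' : ℤ) : ℝ) := by
          exact_mod_cast h6
        linarith [hx.1]
    · have hne : (k', s') ≠ (k, par s) := fun he => hd2 (by
        rw [(Prod.mk.inj he).1, (Prod.mk.inj he).2])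
      rcases far k' k s' (par s) hne h with h6 | h6
      · have h7 : ((20 * k' + XX s' : ℤ) : ℝ) + 5 < ((20 * k + XX (par s) : ℤ) : ℝ) := by
          exact_mod_cast h6
        linarith [hx.2.1]
      · have h7 : ((20 * k + XX (par s) : ℤ) : ℝ) + 5 < ((20 * k' + XX s' : ℤ) : ℝ) := by
          exact_mod_cast h6
        linarith [hx.1]

theorem sees_symm {B : Set (ℝ × ℝ)} {b c : ℝ × ℝ} (h : Sees B b c) : Sees B c b := by
  obtain ⟨p, q, hpq, h1, h2, h3⟩ := h
  refine ⟨p, q, hpq, h2, h1, fun d hd hd1 hd2 => ?_⟩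
  rw [Set.uIcc_comm]
  exact h3 d hd hd2 hd1

/-- Two bars which see each other are a bar and its parent. -/
theorem par_of_sees (B : Set (ℝ × ℝ)) (k k' : ℤ) (s s' : Fin 8) (hne : (k, s) ≠ (k', s'))
    (hup : s ≠ 2 → PP k (par s) ∈ B) (hup' : s' ≠ 2 → PP k' (par s') ∈ B)
    (h : Sees B (PP k s) (PP k' s')) :
    k = k' ∧ ((s ≠ 2 ∧ s' = par s) ∨ (s' ≠ 2 ∧ s = par s')) := by
  obtain ⟨p, q, hpq, h1, h2, h3⟩ := h
  have h1p := (mem_seg_PP k s p _).1 (h1 ⟨⟨le_rfl, hpq.le⟩, rfl⟩)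
  have h1q := (mem_seg_PP k s q _).1 (h1 ⟨⟨hpq.le, le_rfl⟩, rfl⟩)
  have h2p := (mem_seg_PP k' s' p _).1 (h2 ⟨⟨le_rfl, hpq.le⟩, rfl⟩)
  have h2q := (mem_seg_PP k' s' q _).1 (h2 ⟨⟨hpq.le, le_rfl⟩, rfl⟩)
  have hlt : 20 * k + XX s < 20 * k' + XX s' + 5 := by
    have : ((20 * k + XX s : ℤ) : ℝ) < ((20 * k' + XX s' : ℤ) : ℝ) + 5 := by
      linarith [h1p.1, h2q.2.1]
    exact_mod_cast this
  have hlt' : 20 * k' + XX s' < 20 * k + XX s + 5 := by
    have : ((20 * k' + XX s' : ℤ) : ℝ) < ((20 * k + XX s : ℤ) : ℝ) + 5 := by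
      linarith [h2p.1, h1q.2.1]
    exact_mod_cast this
  have hr := XX_range s
  have hr' := XX_range s'
  have hk : k = k' := by omega
  subst hk
  refine ⟨rfl, ?_⟩
  have hs : s ≠ s' := fun hs => hne (by rw [hs])
  have hY : YY s ≠ YY s' := by
    intro hY
    rcases far k k s s' hne hY with h | h
    · omega
    · omega
  rcases slots_see s s' hs (by omega) (by omega) hY with h | h | h | h
  · exact Or.inl h
  · exact Or.inr h
  · exfalso
    obtain ⟨ha, hb, hc, hd, he⟩ := h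
    have h4 := h3 _ (hup ha) (fun he => hc (Prod.mk.inj (PP_inj _ _ _ _ he)).2)
      (fun he => hb (Prod.mk.inj (PP_inj _ _ _ _ he)).2)
    refine (Set.disjoint_left.1 h4 : ∀ ⦃a⦄, a ∈ _ → a ∉ _) (a := (p, ((YY (par s) : ℤ) : ℝ))) ?_ ⟨⟨le_rfl, hpq.le⟩, ?_⟩
    · rw [mem_seg_PP, hd]
      exact ⟨h1p.1, h1p.2.1, rfl⟩
    · change ((YY (par s) : ℤ) : ℝ) ∈ Set.uIcc ((YY s : ℤ) : ℝ) ((YY s' : ℤ) : ℝ)
      rw [Set.mem_uIcc]
      rcases he with h | h
      · left; exact ⟨by exact_mod_cast h.1, by exact_mod_cast h.2⟩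
      · right; exact ⟨by exact_mod_cast h.1, by exact_mod_cast h.2⟩
  · exfalso
    obtain ⟨ha, hb, hc, hd, he⟩ := h
    have h4 := h3 _ (hup' ha) (fun he => hb (Prod.mk.inj (PP_inj _ _ _ _ he)).2)
      (fun he => hc (Prod.mk.inj (PP_inj _ _ _ _ he)).2)
    refine (Set.disjoint_left.1 h4 : ∀ ⦃a⦄, a ∈ _ → a ∉ _) (a := (p, ((YY (par s') : ℤ) : ℝ))) ?_ ⟨⟨le_rfl, hpq.le⟩, ?_⟩
    · rw [mem_seg_PP, hd]
      exact ⟨h2p.1, h2p.2.1, rfl⟩
    · change ((YY (par s') : ℤ) : ℝ) ∈ Set.uIcc ((YY s : ℤ) : ℝ) ((YY s' : ℤ) : ℝ)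
      rw [Set.mem_uIcc]
      rcases he with h | h
      · left; exact ⟨by exact_mod_cast h.1, by exact_mod_cast h.2⟩
      · right; exact ⟨by exact_mod_cast h.1, by exact_mod_cast h.2⟩

theorem geom : St_geom := by
  intro V G t β ι _ _ owner place hpl
  let e := Fintype.equivFin ι
  let k : ι → ℤ := fun c => ((e c : ℕ) : ℤ)
  have hk : Function.Injective k := by
    intro a b hab
    have h1 : (e a : ℕ) = (e b : ℕ) := Int.ofNat.inj hab
    exact e.injective (Fin.ext h1)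
  let P : ι × Fin 8 → ℝ × ℝ := fun c => PP (k c.1) c.2
  have hP : ∀ c c', P c = P c' → c = c' := by
    intro c c' h
    have h1 := Prod.mk.inj (PP_inj _ _ _ _ h)
    exact Prod.ext (hk h1.1) h1.2
  let S : V → Finset (ℝ × ℝ) := fun v =>
    (univ.filter (fun b => owner b = v)).image (fun b => P (place b))
  have hS : ∀ v x, x ∈ S v ↔ ∃ b, owner b = v ∧ P (place b) = x := by
    intro v x
    simp [S]
  have hne : ∀ c c' : ι × Fin 8, c ≠ c' → (k c.1, c.2) ≠ (k c'.1, c'.2) := by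
    intro c c' h he
    have h1 := Prod.mk.inj he
    exact h (Prod.ext (hk h1.1) h1.2)
  have hB : ∀ d ∈ {x | ∃ u, x ∈ S u}, ∃ k s, d = PP k s := by
    rintro d ⟨u, hu⟩
    obtain ⟨b, -, rfl⟩ := (hS u d).1 hu
    exact ⟨_, _, rfl⟩
  have hmem : ∀ b, P (place b) ∈ {x | ∃ u, x ∈ S u} := fun b => ⟨owner b, (hS _ _).2 ⟨b, rfl, rfl⟩⟩
  refine ⟨S, ?_, ?_, ?_⟩
  · intro v
    exact card_image_le.trans (hpl.card v)
  · intro v w x y hx hy hxy
    obtain ⟨b, hb, rfl⟩ := (hS _ _).1 hx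
    obtain ⟨c, hc, rfl⟩ := (hS _ _).1 hy
    apply disj_PP
    apply hne
    intro he
    have hbc := hpl.inj he
    subst hbc
    exact hxy (by rw [← hb, ← hc])
  · intro v w hvw
    constructor
    · intro hadj
      obtain ⟨b, b', h2, h3, h4⟩ := hpl.cover v w hadj
      have hsee : Sees {x | ∃ u, x ∈ S u} (P (place b)) (P (place b')) := by
        rw [h3]
        exact sees_par _ hB _ _ h2
      rcases Sym2.eq_iff.1 h4 with ⟨h5, h6⟩ | ⟨h5, h6⟩
      · exact ⟨_, (hS _ _).2 ⟨b, h5, rfl⟩, _, (hS _ _).2 ⟨b', h6, rfl⟩, hsee⟩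
      · exact ⟨_, (hS _ _).2 ⟨b', h6, rfl⟩, _, (hS _ _).2 ⟨b, h5, rfl⟩, sees_symm hsee⟩
    · rintro ⟨x, hx, y, hy, hsee⟩
      obtain ⟨b, hb, rfl⟩ := (hS _ _).1 hx
      obtain ⟨c, hc, rfl⟩ := (hS _ _).1 hy
      have hbc : place b ≠ place c := by
        intro he
        have := hpl.inj he
        subst this
        exact hvw (hb.symm.trans hc)
      have hup : ∀ b, (place b).2 ≠ 2 → PP (k (place b).1) (par (place b).2) ∈
          {x | ∃ u, x ∈ S u} := by
        intro b hb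
        obtain ⟨b', h1, -⟩ := hpl.up b hb
        have := hmem b'
        rw [h1] at this
        exact this
      obtain ⟨h1, h2⟩ := par_of_sees _ _ _ _ _ (hne _ _ hbc) (hup b) (hup c) hsee
      have h1' := hk h1
      rcases h2 with ⟨h3, h4⟩ | ⟨h3, h4⟩
      · obtain ⟨b', h5, h6⟩ := hpl.up b h3
        have h7 : place b' = place c := by
          rw [h5]
          exact Prod.ext h1' h4.symm
        have := hpl.inj h7
        subst this
        rw [← hb, ← hc]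
        exact h6
      · obtain ⟨b', h5, h6⟩ := hpl.up c h3
        have h7 : place b' = place b := by
          rw [h5]
          exact Prod.ext h1'.symm h4.symm
        have := hpl.inj h7
        subst this
        rw [← hb, ← hc]
        exact h6.symm

end MP_482ee1
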