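import Pool.Agent.R42.UB.UBAux

/-! MP_482ee1_co, UB-LARGE: Hall argument for maximum degree at least 6. -/

set_option autoImplicit false

open Finset Classical

namespace MP_482ee1

noncomputable section

theorem large_hall {V : Type} [Fintype V] (O : V → V → Prop) :
    ∃ f : {u : V // outd O u = 3 ∧ 4 ≤ ind O u} → (Σ _ : V, ℕ),
      Function.Injective f ∧ ∀ u, O u.1 (f u).1 ∧ (f u).2 < (ind O (f u).1 + 2) / 3 := by
  let T : {u : V // outd O u = 3 ∧ 4 ≤ ind O u} → Finset (Σ _ : V, ℕ) := fun u =>
    (univ.filter (fun v => O u.1 v)).sigma (fun v => Finset.range ((ind O v + 2) / 3))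
  have hall : ∀ A : Finset {u : V // outd O u = 3 ∧ 4 ≤ ind O u}, A.card ≤ (A.biUnion T).card := by
    intro A
    let N : Finset V := A.biUnion (fun u => univ.filter (fun v => O u.1 v))
    have h1 : A.biUnion T = N.sigma (fun v => Finset.range ((ind O v + 2) / 3)) := by
      ext ⟨v, j⟩
      simp only [T, N, Finset.mem_biUnion, Finset.mem_sigma, Finset.mem_filter, Finset.mem_univ,
        true_and, Finset.mem_range]
      constructor
      · rintro ⟨u, hu, h1, h2⟩
        exact ⟨⟨u, hu, h1⟩, h2⟩
      · rintro ⟨⟨u, hu, h1⟩, h2⟩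
        exact ⟨u, hu, h1, h2⟩
    have h2 := Finset.sum_card_bipartiteAbove_eq_sum_card_bipartiteBelow
      (s := A) (t := N) (r := fun u v => O u.1 v)
    have h3 : ∀ u ∈ A, (N.bipartiteAbove (fun u v => O u.1 v) u).card = 3 := by
      intro u hu
      have : N.bipartiteAbove (fun (u : {u : V // outd O u = 3 ∧ 4 ≤ ind O u}) v => O u.1 v) u
          = univ.filter (fun v => O u.1 v) := by
        ext v
        simp only [Finset.mem_bipartiteAbove, Finset.mem_filter, Finset.mem_univ, true_and,
          and_iff_right_iff_imp]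
        intro hv
        exact Finset.mem_biUnion.2 ⟨u, hu, by simpa using hv⟩
      rw [this]
      exact u.2.1
    have h4 : ∀ v ∈ N, (A.bipartiteBelow (fun u v => O u.1 v) v).card ≤ 3 * ((ind O v + 2) / 3) := by
      intro v _
      have : (A.bipartiteBelow (fun u v => O u.1 v) v).card ≤ ind O v := by
        refine Finset.card_le_card_of_injOn (fun u => u.1) ?_ ?_
        · intro u hu
          have hu' := (Finset.mem_bipartiteBelow (r := fun (u : {u : V // outd O u = 3 ∧
            4 ≤ ind O u}) v => O u.1 v)).1 hu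
          simpa using hu'.2
        · intro a _ b _ hab
          exact Subtype.ext hab
      omega
    rw [Finset.sum_congr rfl h3, Finset.sum_const, smul_eq_mul] at h2
    have h5 := Finset.sum_le_sum h4
    rw [← Finset.mul_sum] at h5
    rw [h1, Finset.card_sigma]
    simp only [Finset.card_range]
    omega
  obtain ⟨f, hf, hfT⟩ := (Finset.all_card_le_biUnion_card_iff_exists_injective T).1 hall
  refine ⟨f, hf, fun u => ?_⟩
  have := hfT u
  simp only [T, Finset.mem_sigma, Finset.mem_filter, Finset.mem_univ, true_and,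
    Finset.mem_range] at this
  exact this

theorem large (h : St_orient) : St_large := by
  intro V _ G D hD hdg hW
  obtain ⟨O, ho, hout⟩ := h V inferInstance G 3 hW
  obtain ⟨f, hf, hfT⟩ := large_hall O
  let τ : V → Option V := fun u =>
    if h : outd O u = 3 ∧ 4 ≤ ind O u then some (f ⟨u, h⟩).1 else none
  have hτ : ∀ u w, τ u = some w → ∃ h : outd O u = 3 ∧ 4 ≤ ind O u, (f ⟨u, h⟩).1 = w := by
    intro u w huw
    by_cases h : outd O u = 3 ∧ 4 ≤ ind O u
    · refine ⟨h, ?_⟩
      simp only [τ, dif_pos h] at huw
      exact Option.some.inj huw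
    · simp only [τ, dif_neg h] at huw
      exact absurd huw (by simp)
  have hsp : ∀ v, sp τ v ≤ (ind O v + 2) / 3 := by
    intro v
    unfold sp
    rw [← Finset.card_range ((ind O v + 2) / 3)]
    refine Finset.card_le_card_of_injOn
      (fun x => if h : outd O x = 3 ∧ 4 ≤ ind O x then (f ⟨x, h⟩).2 else 0) ?_ ?_
    · intro x hx
      have hx' : τ x = some v := by simpa using hx
      obtain ⟨h, hv⟩ := hτ x v hx'
      have := (hfT ⟨x, h⟩).2
      rw [hv] at this
      simp only [dif_pos h, Finset.coe_range, Set.mem_Iio]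
      exact this
    · intro x hx y hy hxy
      have hx' : τ x = some v := by simpa using hx
      have hy' : τ y = some v := by simpa using hy
      obtain ⟨h, hv⟩ := hτ x v hx'
      obtain ⟨h', hv'⟩ := hτ y v hy'
      simp only [dif_pos h, dif_pos h'] at hxy
      have : f ⟨x, h⟩ = f ⟨y, h'⟩ := by
        refine Sigma.ext (hv.trans hv'.symm) (heq_of_eq hxy)
      exact congrArg Subtype.val (hf this)
  refine ⟨O, τ, ho, ?_, ?_, ?_⟩
  · intro v w hvw
    obtain ⟨h, hw⟩ := hτ v w hvw
    rw [← hw]
    exact (hfT ⟨v, h⟩).1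
  · intro v
    have h1 := hsp v
    by_cases h : outd O v = 3 ∧ 4 ≤ ind O v
    · have hne : τ v ≠ none := by simp [τ, dif_pos h]
      unfold RR mm
      rw [if_neg hne]
      have h2 := h.2
      have h3 : ind O v - 2 ≤ max (ind O v - 2) (sp τ v) := le_max_left _ _
      omega
    · have hne : τ v = none := by simp [τ, dif_neg h]
      unfold RR mm
      rw [if_pos hne]
      omega
  · intro v
    have h1 := hsp v
    have h4 := orient_dg ho v
    have h5 := hdg v
    have h6 := hout v
    by_cases h : outd O v = 3 ∧ 4 ≤ ind O v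
    · have hne : τ v ≠ none := by simp [τ, dif_pos h]
      unfold RR mm
      rw [if_neg hne]
      have h2 := h.2
      have h3 : max (ind O v - 2) (sp τ v) = ind O v - 2 := max_eq_left (by omega)
      rw [h3]
      omega
    · have hne : τ v = none := by simp [τ, dif_neg h]
      unfold RR mm
      rw [if_pos hne]
      omega

end

end MP_482ee1
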