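import Pool.Agent.R42.UB.Defs

set_option autoImplicit false

open Finset Classical

namespace MP_482ee1

noncomputable section

theorem orient : St_orient := by
  intro V _ G k h
  let E := {e : Sym2 V // e ∈ G.edgeSet}
  have hfE : Finite E := inferInstance
  have : Fintype E := Fintype.ofFinite E
  let T : E → Finset (V × ℕ) := fun e => (univ.filter (fun x => x ∈ e.1)) ×ˢ range k
  have hall : ∀ A : Finset E, A.card ≤ (A.biUnion T).card := by
    intro A
    let U : Finset V := univ.filter (fun x => ∃ e ∈ A, x ∈ e.1)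
    have h1 : A.biUnion T = U ×ˢ range k := by
      ext ⟨x, j⟩
      simp only [mem_biUnion, T, mem_product, mem_filter, mem_univ, true_and, U]
      constructor
      · rintro ⟨e, he, hx, hj⟩
        exact ⟨⟨e, he, hx⟩, hj⟩
      · rintro ⟨⟨e, he, hx⟩, hj⟩
        exact ⟨e, he, hx, hj⟩
    rw [h1, card_product, card_range]
    have h2 : A.card ≤ eIn G U := by
      unfold eIn
      rw [← Set.ncard_coe_finset, ← Set.ncard_image_of_injective (f := (Subtype.val : E → Sym2 V)) _
        Subtype.val_injective]
      apply Set.ncard_le_ncard _ (Set.toFinite _)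
      rintro _ ⟨e, he, rfl⟩
      refine ⟨e.2, ?_⟩
      intro x hx
      simp only [U, mem_filter, mem_univ, true_and]
      exact ⟨e, he, hx⟩
    calc A.card ≤ eIn G U := h2
      _ ≤ k * U.card := h U
      _ = U.card * k := Nat.mul_comm _ _
  obtain ⟨f, hfi, hf⟩ := (Finset.all_card_le_biUnion_card_iff_exists_injective T).1 hall
  let O : V → V → Prop := fun v w => ∃ hvw : G.Adj v w, (f ⟨s(v, w), hvw⟩).1 = v
  refine ⟨O, ⟨?_, ?_⟩, ?_⟩
  · intro v w
    constructor
    · intro hvw
      have h1 := hf ⟨s(v, w), hvw⟩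
      simp only [T, mem_product, mem_filter, mem_univ, true_and] at h1
      rcases Sym2.mem_iff.1 h1.1 with h2 | h2
      · exact Or.inl ⟨hvw, h2⟩
      · refine Or.inr ⟨hvw.symm, ?_⟩
        have h3 : (⟨s(w, v), hvw.symm⟩ : E) = ⟨s(v, w), hvw⟩ := Subtype.ext Sym2.eq_swap
        rw [h3]
        exact h2
    · rintro (⟨h1, _⟩ | ⟨h1, _⟩)
      · exact h1
      · exact h1.symm
  · rintro v w ⟨h1, h2⟩ ⟨h3, h4⟩
    have h5 : (⟨s(w, v), h3⟩ : E) = ⟨s(v, w), h1⟩ := Subtype.ext Sym2.eq_swap
    rw [h5, h2] at h4
    exact h1.ne h4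
  · intro v
    unfold outd
    have h1 : ∀ w : V, O v w → ∃ j, j < k ∧ ∃ hvw : G.Adj v w, f ⟨s(v, w), hvw⟩ = (v, j) := by
      rintro w ⟨hvw, h2⟩
      have h3 := hf ⟨s(v, w), hvw⟩
      simp only [T, mem_product, mem_filter, mem_univ, true_and, mem_range] at h3
      exact ⟨_, h3.2, hvw, Prod.ext h2 rfl⟩
    choose! j hj using h1
    have h2 : (univ.filter (fun w => O v w)).card ≤ (range k).card := by
      apply Finset.card_le_card_of_injOn j
      · intro w hw
        have hw' := (mem_filter.1 hw).2
        simp only [coe_range, Set.mem_Iio]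
        exact (hj w hw').1
      · intro w hw w' hw' hww
        have hw1 := (mem_filter.1 hw).2
        have hw2 := (mem_filter.1 hw').2
        obtain ⟨-, a1, a2⟩ := hj w hw1
        obtain ⟨-, b1, b2⟩ := hj w' hw2
        rw [← hww] at b2
        have h3 := hfi (a2.trans b2.symm)
        have h4 : s(v, w) = s(v, w') := congrArg Subtype.val h3
        have := Sym2.congr_right.1 h4
        exact this
    rw [card_range] at h2
    convert h2

end

end MP_482ee1
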