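import Pool.Agent.R42.UB.Defs

/-! MP_482ee1_co, task UB-PLACE: a numerical scheme gives a placement. -/

set_option autoImplicit false

open Finset Classical

namespace MP_482ee1

noncomputable section

namespace Pl

variable {V : Type} [Fintype V] {G : SimpleGraph V} {O : V → V → Prop} {τ : V → Option V} {t : ℕ}

/-- numbering of the in-edges, the special ones first -/
lemma exists_num (O : V → V → Prop) (τ : V → Option V) (hτ : ∀ v w, τ v = some w → O v w) (v : V) :
    ∃ f : V → ℕ, (∀ x, O x v → f x < ind O v) ∧ (∀ x, τ x = some v → f x < sp τ v) ∧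
      ∀ x y, O x v → O y v → f x = f y → x = y := by
  obtain ⟨A, hA⟩ : ∃ A : Finset V, A = univ.filter (fun x => τ x = some v) := ⟨_, rfl⟩
  obtain ⟨B, hB⟩ : ∃ B : Finset V, B = univ.filter (fun x => O x v ∧ ¬ τ x = some v) := ⟨_, rfl⟩
  have hspc : sp τ v = A.card := by rw [hA]; rfl
  have hdisj : Disjoint A B := by
    rw [Finset.disjoint_left, hA, hB]
    intro x h1 h2
    exact (Finset.mem_filter.1 h2).2.2 (Finset.mem_filter.1 h1).2
  have hAB : univ.filter (fun x => O x v) = A ∪ B := by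
    ext x
    rw [Finset.mem_union, hA, hB, Finset.mem_filter, Finset.mem_filter, Finset.mem_filter]
    constructor
    · rintro ⟨h1, h2⟩
      by_cases h3 : τ x = some v
      · exact Or.inl ⟨h1, h3⟩
      · exact Or.inr ⟨h1, h2, h3⟩
    · rintro (⟨h1, h2⟩ | ⟨h1, h2, _⟩)
      · exact ⟨h1, hτ x v h2⟩
      · exact ⟨h1, h2⟩
  have hind : ind O v = A.card + B.card := by
    unfold ind
    rw [hAB, Finset.card_union_of_disjoint hdisj]
  have hmemA : ∀ x, τ x = some v → x ∈ A := fun x h => by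
    rw [hA, Finset.mem_filter]; exact ⟨mem_univ _, h⟩
  have hmem : ∀ x, O x v → x ∈ A ∪ B := fun x h => by
    rw [← hAB, Finset.mem_filter]; exact ⟨mem_univ _, h⟩
  have hlA : ∀ x : A, ((A.equivFin x : Fin A.card) : ℕ) < A.card := fun x => (A.equivFin x).2
  have hlB : ∀ x : B, ((B.equivFin x : Fin B.card) : ℕ) < B.card := fun x => (B.equivFin x).2
  refine ⟨fun x => if h : x ∈ A then ((A.equivFin ⟨x, h⟩ : Fin A.card) : ℕ) else
    if h : x ∈ B then A.card + ((B.equivFin ⟨x, h⟩ : Fin B.card) : ℕ) else 0, ?_, ?_, ?_⟩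
  · intro x hx
    rcases Finset.mem_union.1 (hmem x hx) with h | h
    · simp only [h, dif_pos]
      have := hlA ⟨x, h⟩
      omega
    · have hn : x ∉ A := fun h' => Finset.disjoint_left.1 hdisj h' h
      simp only [hn, h, dif_pos, dif_neg, not_false_eq_true]
      have := hlB ⟨x, h⟩
      omega
  · intro x hx
    have h := hmemA x hx
    simp only [h, dif_pos]
    have := hlA ⟨x, h⟩
    omega
  · intro x y hx hy hxy
    rcases Finset.mem_union.1 (hmem x hx) with h | h <;>
      rcases Finset.mem_union.1 (hmem y hy) with h' | h'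
    · simp only [h, h', dif_pos] at hxy
      exact congrArg Subtype.val (A.equivFin.injective (Fin.ext hxy))
    · have hn : y ∉ A := fun h2 => Finset.disjoint_left.1 hdisj h2 h'
      simp only [h, h', hn, dif_pos, dif_neg, not_false_eq_true] at hxy
      have := hlA ⟨x, h⟩
      omega
    · have hn : x ∉ A := fun h2 => Finset.disjoint_left.1 hdisj h2 h
      simp only [h, h', hn, dif_pos, dif_neg, not_false_eq_true] at hxy
      have := hlA ⟨y, h'⟩
      omega
    · have hn : x ∉ A := fun h2 => Finset.disjoint_left.1 hdisj h2 h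
      have hn' : y ∉ A := fun h2 => Finset.disjoint_left.1 hdisj h2 h'
      simp only [h, h', hn, hn', dif_pos, dif_neg, not_false_eq_true] at hxy
      have e : ((B.equivFin ⟨x, h⟩ : Fin B.card) : ℕ) = ((B.equivFin ⟨y, h'⟩ : Fin B.card) : ℕ) := by
        omega
      exact congrArg Subtype.val (B.equivFin.injective (Fin.ext e))

/-- child slots -/
def cs (q : ℕ) : Fin 8 := if q = 0 then 1 else if q = 1 then 3 else 6

/-- leaf slots -/
def ls (q e : ℕ) : Fin 8 :=
  if q = 0 then (if e = 0 then 0 else 5) else (if e = 0 then 4 else 7)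

lemma cs_ne (q : ℕ) : cs q ≠ 2 := by
  unfold cs; split_ifs <;> decide

lemma ls_ne (q e : ℕ) : ls q e ≠ 2 := by
  unfold ls; split_ifs <;> decide

lemma cs_ls (q q' e : ℕ) : cs q ≠ ls q' e := by
  unfold cs ls; split_ifs <;> decide

lemma cs_inj {q q' : ℕ} (h1 : q ≤ 2) (h2 : q' ≤ 2) (h : cs q = cs q') : q = q' := by
  unfold cs at h
  split_ifs at h <;> first | omega | exact absurd h (by decide)

lemma ls_inj {q q' e e' : ℕ} (h1 : q ≤ 1) (h2 : q' ≤ 1) (h3 : e ≤ 1) (h4 : e' ≤ 1)
    (h : ls q e = ls q' e') : q = q' ∧ e = e' := by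
  unfold ls at h
  split_ifs at h <;> first | omega | exact absurd h (by decide)

lemma par_cs (q : ℕ) : par (cs q) = 2 := by
  unfold cs; split_ifs <;> rfl

lemma par_ls {q : ℕ} (e : ℕ) (h : q ≤ 1) : par (ls q e) = cs q := by
  have h2 : q = 0 ∨ q = 1 := by omega
  rcases h2 with rfl | rfl <;> (unfold ls cs; split_ifs <;> first | rfl | omega)

lemma sp_le_ind (hS : Scheme G O τ t) (v : V) : sp τ v ≤ ind O v := by
  unfold sp ind
  apply Finset.card_le_card
  intro x hx
  rw [Finset.mem_filter] at hx ⊢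
  exact ⟨hx.1, hS.tau x v hx.2⟩

lemma sp_le_mm (hS : Scheme G O τ t) (v : V) : sp τ v ≤ mm O τ v := by
  unfold mm
  split_ifs
  · exact sp_le_ind hS v
  · exact le_max_right _ _

lemma mm_facts (hS : Scheme G O τ t) (v : V) : mm O τ v ≤ ind O v ∧
    (mm O τ v < ind O v → τ v ≠ none ∧ ind O v ≤ mm O τ v + 2) := by
  have h := sp_le_ind hS v
  unfold mm
  split_ifs with h1
  · exact ⟨le_rfl, fun h => absurd h (lt_irrefl _)⟩
  · refine ⟨max_le (by omega) h, fun _ => ⟨h1, ?_⟩⟩
    have := le_max_left (ind O v - 2) (sp τ v)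
    omega

/-- position of the bar of the out-edge `(u, z)` -/
def pos (O : V → V → Prop) (τ : V → Option V) (f : V → V → ℕ) (u z : V) : (V × ℕ) × Fin 8 :=
  if f z u < mm O τ z then ((z, f z u % RR O τ z), cs (f z u / RR O τ z))
  else match τ z with
    | some w => ((w, f w z % RR O τ w), ls (f w z / RR O τ w) (f z u - mm O τ z))
    | none => ((z, 0), 0)

lemma mod_div_inj {a b r : ℕ} (h1 : a % r = b % r) (h2 : a / r = b / r) : a = b := by
  rw [← Nat.div_add_mod a r, ← Nat.div_add_mod b r, h1, h2]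

end Pl

open Pl in
theorem place : St_place := by
  intro V _ G O τ t hS
  choose f hf1 hf2 hf3 using exists_num O τ hS.tau
  obtain ⟨R, hR⟩ : ∃ R : V → ℕ, R = RR O τ := ⟨_, rfl⟩
  obtain ⟨m, hm⟩ : ∃ m : V → ℕ, m = mm O τ := ⟨_, rfl⟩
  have hRm : ∀ v, R v = (m v + 2) / 3 := fun v => by rw [hR, hm]; rfl
  have hRt : ∀ v, R v ≤ t := fun v => by
    have := hS.card v
    rw [hR]; omega
  have hspm : ∀ v, sp τ v ≤ m v := fun v => by rw [hm]; exact sp_le_mm hS v
  have hsp2 : ∀ v, sp τ v ≤ 2 * R v := fun v => by rw [hR]; exact hS.special v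
  have hmi : ∀ v, m v ≤ ind O v := fun v => by rw [hm]; exact (mm_facts hS v).1
  have hmi2 : ∀ v, m v < ind O v → τ v ≠ none ∧ ind O v ≤ m v + 2 := fun v => by
    rw [hm]; exact (mm_facts hS v).2
  -- the two kinds of positions
  have hchild : ∀ u z, f z u < m z → pos O τ f u z = ((z, f z u % R z), cs (f z u / R z)) ∧
      f z u / R z ≤ 2 ∧ 0 < R z := by
    intro u z h
    have h0 := hRm z
    have hpos : 0 < R z := by omega
    refine ⟨?_, ?_, hpos⟩
    · unfold pos
      rw [← hm, ← hR, if_pos h]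
    · have : f z u / R z < 3 := by
        rw [Nat.div_lt_iff_lt_mul hpos]; omega
      omega
  have hleaf : ∀ u z, O u z → ¬ f z u < m z → ∃ w, τ z = some w ∧ O z w ∧
      pos O τ f u z = ((w, f w z % R w), ls (f w z / R w) (f z u - m z)) ∧
      f w z / R w ≤ 1 ∧ 0 < R w ∧ f z u - m z ≤ 1 ∧ f w z < m w := by
    intro u z huz h
    have h1 := hf1 z u huz
    obtain ⟨h2, h3⟩ := hmi2 z (by omega)
    obtain ⟨w, hw⟩ := Option.ne_none_iff_exists'.1 h2
    have h4 := hf2 w z hw
    have h5 := hsp2 w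
    have hpos : 0 < R w := by omega
    refine ⟨w, hw, hS.tau z w hw, ?_, ?_, hpos, by omega, lt_of_lt_of_le h4 (hspm w)⟩
    · unfold pos
      rw [← hm, ← hR, if_neg h, hw]
    · have : f w z / R w < 2 := by
        rw [Nat.div_lt_iff_lt_mul hpos]; omega
      omega
  -- all second coordinates are small
  have hsmall : ∀ u z, O u z → (pos O τ f u z).1.2 < R (pos O τ f u z).1.1 := by
    intro u z huz
    by_cases h : f z u < m z
    · obtain ⟨h1, _, h3⟩ := hchild u z h
      rw [h1]
      exact Nat.mod_lt _ h3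
    · obtain ⟨w, _, _, h1, _, h3, _, _⟩ := hleaf u z huz h
      rw [h1]
      exact Nat.mod_lt _ h3
  have hposinj : ∀ u z u' z', O u z → O u' z' → pos O τ f u z = pos O τ f u' z' →
      u = u' ∧ z = z' := by
    intro u z u' z' huz huz' he
    by_cases h : f z u < m z <;> by_cases h' : f z' u' < m z'
    · obtain ⟨h1, h2, h3⟩ := hchild u z h
      obtain ⟨h1', h2', h3'⟩ := hchild u' z' h'
      rw [h1, h1'] at he
      have e1 : z = z' := congrArg (fun x => x.1.1) he
      subst e1
      have e2 : f z u % R z = f z u' % R z := congrArg (fun x => x.1.2) he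
      have e3 : f z u / R z = f z u' / R z := cs_inj h2 h2' (congrArg (fun x => x.2) he)
      exact ⟨hf3 z u u' huz huz' (mod_div_inj e2 e3), rfl⟩
    · obtain ⟨h1, h2, h3⟩ := hchild u z h
      obtain ⟨w', _, _, h1', _, _, _, _⟩ := hleaf u' z' huz' h'
      rw [h1, h1'] at he
      exact absurd (congrArg (fun x => x.2) he) (cs_ls _ _ _)
    · obtain ⟨h1, h2, h3⟩ := hchild u' z' h'
      obtain ⟨w', _, _, h1', _, _, _, _⟩ := hleaf u z huz h
      rw [h1, h1'] at he
      exact absurd (congrArg (fun x => x.2) he).symm (cs_ls _ _ _)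
    · obtain ⟨w, a1, a2, a3, a4, a5, a6, a7⟩ := hleaf u z huz h
      obtain ⟨w', b1, b2, b3, b4, b5, b6, b7⟩ := hleaf u' z' huz' h'
      rw [a3, b3] at he
      have e1 : w = w' := congrArg (fun x => x.1.1) he
      subst e1
      have e2 : f w z % R w = f w z' % R w := congrArg (fun x => x.1.2) he
      obtain ⟨e3, e4⟩ := ls_inj a4 b4 a6 b6 (congrArg (fun x => x.2) he)
      have e5 : z = z' := hf3 w z z' a2 b2 (mod_div_inj e2 e3)
      subst e5
      exact ⟨hf3 z u u' huz huz' (by omega), rfl⟩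
  -- the bars
  let β : Type := {p : V × V // O p.1 p.2} ⊕ {p : V × Fin (t + 1) // (p.2 : ℕ) < R p.1}
  let owner : β → V := Sum.elim (fun p => p.1.1) (fun p => p.1.1)
  let place : β → (V × Fin (t + 1)) × Fin 8 := Sum.elim
    (fun p => (((pos O τ f p.1.1 p.1.2).1.1, Fin.ofNat (t + 1) (pos O τ f p.1.1 p.1.2).1.2),
      (pos O τ f p.1.1 p.1.2).2))
    (fun p => (p.1, 2))
  have hofNat : ∀ j, j ≤ t → ((Fin.ofNat (t + 1) j : Fin (t + 1)) : ℕ) = j := by
    intro j hj
    simp only [Fin.val_ofNat]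
    exact Nat.mod_eq_of_lt (by omega)
  have hslot : ∀ u z, O u z → (pos O τ f u z).2 ≠ 2 := by
    intro u z huz
    by_cases h : f z u < m z
    · obtain ⟨h1, _, _⟩ := hchild u z h
      rw [h1]; exact cs_ne _
    · obtain ⟨w, _, _, h1, _, _, _, _⟩ := hleaf u z huz h
      rw [h1]; exact ls_ne _ _
  have hup : ∀ u z (huz : O u z), ∃ b' : β,
      place b' = (((pos O τ f u z).1.1, Fin.ofNat (t + 1) (pos O τ f u z).1.2),
        par (pos O τ f u z).2) ∧ owner b' = z := by
    intro u z huz
    by_cases h : f z u < m z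
    · obtain ⟨h1, _, h3⟩ := hchild u z h
      rw [h1, par_cs]
      have hlt : f z u % R z < R z := Nat.mod_lt _ h3
      have hle := hRt z
      refine ⟨Sum.inr ⟨(z, Fin.ofNat (t + 1) (f z u % R z)), ?_⟩, rfl, rfl⟩
      show ((Fin.ofNat (t + 1) (f z u % R z) : Fin (t + 1)) : ℕ) < R z
      rw [hofNat _ (by omega)]
      exact hlt
    · obtain ⟨w, a1, a2, a3, a4, a5, a6, a7⟩ := hleaf u z huz h
      obtain ⟨b1, b2, b3⟩ := hchild z w a7
      refine ⟨Sum.inl ⟨(z, w), a2⟩, ?_, rfl⟩
      show (((pos O τ f z w).1.1, Fin.ofNat (t + 1) (pos O τ f z w).1.2), (pos O τ f z w).2) = _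
      rw [a3, b1, par_ls _ a4]
  refine ⟨β, V × Fin (t + 1), inferInstance, inferInstance, owner, place, ?_, ?_, ?_, ?_⟩
  · rintro (⟨⟨u, z⟩, h⟩ | ⟨⟨v, j⟩, h⟩) (⟨⟨u', z'⟩, h'⟩ | ⟨⟨v', j'⟩, h'⟩) he
    · change (((pos O τ f u z).1.1, Fin.ofNat (t + 1) (pos O τ f u z).1.2), (pos O τ f u z).2) =
        (((pos O τ f u' z').1.1, Fin.ofNat (t + 1) (pos O τ f u' z').1.2), (pos O τ f u' z').2) at he
      change O u z at h
      change O u' z' at h'
      have e1 : (pos O τ f u z).1.1 = (pos O τ f u' z').1.1 := congrArg (fun x => x.1.1) he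
      have e2 : Fin.ofNat (t + 1) (pos O τ f u z).1.2 = Fin.ofNat (t + 1) (pos O τ f u' z').1.2 :=
        congrArg (fun x => x.1.2) he
      have e3 : (pos O τ f u z).2 = (pos O τ f u' z').2 := congrArg (fun x => x.2) he
      have l1 := hsmall u z h
      have l2 := hsmall u' z' h'
      have l3 := hRt (pos O τ f u z).1.1
      have l4 := hRt (pos O τ f u' z').1.1
      have e4 := congrArg Fin.val e2
      rw [hofNat _ (by omega), hofNat _ (by omega)] at e4
      have e5 : pos O τ f u z = pos O τ f u' z' := Prod.ext (Prod.ext e1 e4) e3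
      obtain ⟨e6, e7⟩ := hposinj u z u' z' h h' e5
      subst e6; subst e7
      rfl
    · exfalso
      exact hslot u z h (congrArg (fun x => x.2) he)
    · exfalso
      exact hslot u' z' h' (congrArg (fun x => x.2) he).symm
    · have e1 : ((v, j) : V × Fin (t + 1)) = (v', j') := congrArg (fun x => x.1) he
      have : (⟨(v, j), h⟩ : {p : V × Fin (t + 1) // (p.2 : ℕ) < R p.1}) = ⟨(v', j'), h'⟩ :=
        Subtype.ext e1
      rw [this]
  · rintro (⟨⟨u, z⟩, h⟩ | ⟨⟨v, j⟩, h⟩) hs
    · obtain ⟨b', hb1, hb2⟩ := hup u z h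
      refine ⟨b', hb1, ?_⟩
      rw [hb2]
      exact (hS.orient.adj u z).2 (Or.inl h)
    · exact absurd rfl hs
  · have key : ∀ u z, O u z → ∃ b b', (place b).2 ≠ 2 ∧
        place b' = ((place b).1, par (place b).2) ∧ s(owner b, owner b') = s(u, z) := by
      intro u z huz
      obtain ⟨b', hb1, hb2⟩ := hup u z huz
      refine ⟨Sum.inl ⟨(u, z), huz⟩, b', hslot u z huz, hb1, ?_⟩
      rw [hb2]
      rfl
    intro v w hvw
    rcases (hS.orient.adj v w).1 hvw with h | h
    · exact key v w h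
    · obtain ⟨b, b', h1, h2, h3⟩ := key w v h
      exact ⟨b, b', h1, h2, by rw [h3, Sym2.eq_swap]⟩
  · intro v
    have h1 := Finset.card_le_card_of_injOn (s := univ.filter (fun b : β => owner b = v))
      (t := (univ.filter (fun w => O v w)).disjSum (range (R v)))
      (Sum.map (fun p => p.1.2) (fun p => (p.1.2 : ℕ)))
      (by
        rintro (⟨⟨u, z⟩, h⟩ | ⟨⟨x, j⟩, h⟩) hb
        · have hb2 : u = v := (Finset.mem_filter.1 (Finset.mem_coe.1 hb)).2
          subst hb2
          change O u z at h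
          simp [h]
        · have hb2 : x = v := (Finset.mem_filter.1 (Finset.mem_coe.1 hb)).2
          subst hb2
          change (j : ℕ) < R x at h
          simp [h])
      (by
        rintro (⟨⟨u, z⟩, h⟩ | ⟨⟨x, j⟩, h⟩) hb (⟨⟨u', z'⟩, h'⟩ | ⟨⟨x', j'⟩, h'⟩) hb' he
        · have hb2 : u = v := (Finset.mem_filter.1 (Finset.mem_coe.1 hb)).2
          have hb2' : u' = v := (Finset.mem_filter.1 (Finset.mem_coe.1 hb')).2
          subst hb2; subst hb2'
          have e : z = z' := Sum.inl.inj he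
          subst e
          rfl
        · exact absurd he (by simp)
        · exact absurd he (by simp)
        · have hb2 : x = v := (Finset.mem_filter.1 (Finset.mem_coe.1 hb)).2
          have hb2' : x' = v := (Finset.mem_filter.1 (Finset.mem_coe.1 hb')).2
          subst hb2; subst hb2'
          have e : (j : ℕ) = j' := Sum.inr.inj he
          have e' : j = j' := Fin.ext e
          subst e'
          rfl)
    rw [Finset.card_disjSum, Finset.card_range] at h1
    have h2 := hS.card v
    have h3 : (univ.filter (fun w => O v w)).card = outd O v := rfl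
    rw [h3] at h1
    rw [← hR] at h2
    exact le_trans h1 h2

end

end MP_482ee1
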