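import Pool.Agent.R42.UB.UBAux

/-! MP_482ee1_co, UB-SMALL: maximum degree at most 5. -/

set_option autoImplicit false

open Finset Classical

namespace MP_482ee1

noncomputable section

variable {V : Type} [Fintype V]

/-- every vertex of degree 5 gets its own neighbour -/
theorem small_hall (G : SimpleGraph V) (hdg : ∀ v, dg G v ≤ 5) :
    ∃ g : {x : V // dg G x = 5} → V, Function.Injective g ∧ ∀ x, G.Adj x.1 (g x) := by
  let T : {x : V // dg G x = 5} → Finset V := fun x => univ.filter (fun w => G.Adj x.1 w)
  have hall : ∀ A : Finset {x : V // dg G x = 5}, A.card ≤ (A.biUnion T).card := by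
    intro A
    have h2 := Finset.sum_card_bipartiteAbove_eq_sum_card_bipartiteBelow
      (s := A) (t := A.biUnion T) (r := fun u v => G.Adj u.1 v)
    have h3 : ∀ u ∈ A, ((A.biUnion T).bipartiteAbove (fun u v => G.Adj u.1 v) u).card = 5 := by
      intro u hu
      have : (A.biUnion T).bipartiteAbove (fun (u : {x : V // dg G x = 5}) v => G.Adj u.1 v) u
          = univ.filter (fun v => G.Adj u.1 v) := by
        ext v
        simp only [Finset.mem_bipartiteAbove, Finset.mem_filter, Finset.mem_univ, true_and,
          and_iff_right_iff_imp]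
        intro hv
        exact Finset.mem_biUnion.2 ⟨u, hu, by simpa [T] using hv⟩
      rw [this]
      exact u.2
    have h4 : ∀ v ∈ A.biUnion T, (A.bipartiteBelow (fun u v => G.Adj u.1 v) v).card ≤ 5 := by
      intro v _
      refine le_trans ?_ (hdg v)
      refine Finset.card_le_card_of_injOn (fun u => u.1) ?_ ?_
      · intro u hu
        have hu' := (Finset.mem_bipartiteBelow
          (r := fun (u : {x : V // dg G x = 5}) v => G.Adj u.1 v)).1 hu
        simpa using hu'.2.symm
      · intro a _ b _ hab
        exact Subtype.ext hab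
    rw [Finset.sum_congr rfl h3, Finset.sum_const, smul_eq_mul] at h2
    have h5 := Finset.sum_le_sum h4
    rw [Finset.sum_const, smul_eq_mul] at h5
    omega
  obtain ⟨f, hf, hfT⟩ := (Finset.all_card_le_biUnion_card_iff_exists_injective T).1 hall
  exact ⟨f, hf, fun u => by simpa [T] using hfT u⟩

/-- covers of the vertices of degree 5 -/
def Cov (G : SimpleGraph V) (F : Finset (Sym2 V)) : Prop :=
  (∀ e ∈ F, e ∈ G.edgeSet) ∧ (∀ x, dg G x = 5 → ∃ e ∈ F, x ∈ e) ∧
    ∀ v, (F.filter (fun e => v ∈ e)).card ≤ 2

theorem exists_cov (G : SimpleGraph V) (hdg : ∀ v, dg G v ≤ 5) : ∃ F, Cov G F := by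
  obtain ⟨g, hg, hadj⟩ := small_hall G hdg
  refine ⟨univ.image (fun x : {x : V // dg G x = 5} => s(x.1, g x)), ?_, ?_, ?_⟩
  · intro e he
    obtain ⟨x, _, rfl⟩ := Finset.mem_image.1 he
    exact hadj x
  · intro x hx
    exact ⟨s(x, g ⟨x, hx⟩), Finset.mem_image.2 ⟨⟨x, hx⟩, Finset.mem_univ _, rfl⟩,
      Sym2.mem_mk_left _ _⟩
  · intro v
    have hsub : (univ.image (fun x : {x : V // dg G x = 5} => s(x.1, g x))).filter (fun e => v ∈ e)
        ⊆ ((univ.filter (fun x : {x : V // dg G x = 5} => x.1 = v)).image
            (fun x : {x : V // dg G x = 5} => s(x.1, g x)))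
          ∪ ((univ.filter (fun x : {x : V // dg G x = 5} => g x = v)).image
            (fun x : {x : V // dg G x = 5} => s(x.1, g x))) := by
      intro e he
      rw [Finset.mem_filter, Finset.mem_image] at he
      obtain ⟨⟨x, _, rfl⟩, hv⟩ := he
      rw [Sym2.mem_iff] at hv
      rw [Finset.mem_union]
      rcases hv with hv | hv
      · exact Or.inl (Finset.mem_image.2 ⟨x, by simp [hv], rfl⟩)
      · exact Or.inr (Finset.mem_image.2 ⟨x, by simp [hv], rfl⟩)
    have h1 : (univ.filter (fun x : {x : V // dg G x = 5} => x.1 = v)).card ≤ 1 := by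
      rw [Finset.card_le_one]
      intro a ha b hb
      simp only [Finset.mem_filter, Finset.mem_univ, true_and] at ha hb
      exact Subtype.ext (ha.trans hb.symm)
    have h2 : (univ.filter (fun x : {x : V // dg G x = 5} => g x = v)).card ≤ 1 := by
      rw [Finset.card_le_one]
      intro a ha b hb
      simp only [Finset.mem_filter, Finset.mem_univ, true_and] at ha hb
      exact hg (ha.trans hb.symm)
    calc _ ≤ _ := Finset.card_le_card hsub
      _ ≤ _ := Finset.card_union_le _ _
      _ ≤ _ := Nat.add_le_add Finset.card_image_le Finset.card_image_le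
      _ ≤ 2 := by omega

/-- a minimal cover -/
theorem exists_min_cov (G : SimpleGraph V) (hdg : ∀ v, dg G v ≤ 5) : ∃ F, Cov G F ∧
    ∀ e : Sym2 V, ∃ x, x ∈ e ∧ (e ∈ F → ∀ e' ∈ F, x ∈ e' → e' = e) := by
  obtain ⟨F0, hF0⟩ := exists_cov G hdg
  obtain ⟨F, hF, hmin⟩ := Finset.exists_min_image
    ((univ : Finset (Finset (Sym2 V))).filter (fun F => Cov G F)) (fun F => F.card)
    ⟨F0, by simpa using hF0⟩
  have hF' : Cov G F := by simpa using hF
  refine ⟨F, hF', ?_⟩
  intro e
  by_cases he : e ∈ F
  · by_contra hno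
    push Not at hno
    have hcov : Cov G (F.erase e) := by
      refine ⟨fun e' he' => hF'.1 e' (Finset.mem_of_mem_erase he'), ?_, ?_⟩
      · intro x hx
        by_cases hxe : x ∈ e
        · obtain ⟨-, e', he', hxe', hne⟩ := hno x hxe
          exact ⟨e', Finset.mem_erase.2 ⟨hne, he'⟩, hxe'⟩
        · obtain ⟨e', he', hxe'⟩ := hF'.2.1 x hx
          refine ⟨e', Finset.mem_erase.2 ⟨?_, he'⟩, hxe'⟩
          rintro rfl
          exact hxe hxe'
      · intro v
        refine le_trans (Finset.card_le_card ?_) (hF'.2.2 v)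
        exact Finset.filter_subset_filter _ (Finset.erase_subset _ _)
    have h1 := hmin (F.erase e) (by simpa using hcov)
    have h2 := Finset.card_erase_lt_of_mem he
    omega
  · induction e with
    | _ a b => exact ⟨a, Sym2.mem_mk_left _ _, fun h => absurd h he⟩

/-- the graph without the edges of `F` -/
def del (G : SimpleGraph V) (F : Finset (Sym2 V)) : SimpleGraph V where
  Adj v w := G.Adj v w ∧ s(v, w) ∉ F
  symm := ⟨fun v w h => ⟨h.1.symm, by rw [Sym2.eq_swap]; exact h.2⟩⟩
  loopless := ⟨fun v h => G.loopless.irrefl v h.1⟩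

theorem dg_del (G : SimpleGraph V) (hdg : ∀ v, dg G v ≤ 5) (F : Finset (Sym2 V)) (hF : Cov G F)
    (v : V) : dg (del G F) v ≤ 4 := by
  have hsub : univ.filter (fun w => (del G F).Adj v w) ⊆ univ.filter (fun w => G.Adj v w) := by
    intro w hw
    simp only [Finset.mem_filter, Finset.mem_univ, true_and] at hw ⊢
    exact hw.1
  have hle : dg (del G F) v ≤ dg G v := Finset.card_le_card hsub
  by_cases h5 : dg G v = 5
  · obtain ⟨e, he, hve⟩ := hF.2.1 v h5
    obtain ⟨w, rfl⟩ := hve
    have hadj : G.Adj v w := hF.1 _ he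
    have : dg (del G F) v < dg G v := by
      refine Finset.card_lt_card ⟨hsub, ?_⟩
      intro hss
      have hw : w ∈ univ.filter (fun w => G.Adj v w) := by simpa using hadj
      have := hss hw
      simp only [Finset.mem_filter, Finset.mem_univ, true_and] at this
      exact this.2 he
    omega
  · have := hdg v
    omega

theorem eIn_le (H : SimpleGraph V) (hH : ∀ v, dg H v ≤ 4) (W : Finset V) :
    eIn H W ≤ 2 * W.card := by
  let H' : SimpleGraph V :=
    { Adj := fun v w => H.Adj v w ∧ v ∈ W ∧ w ∈ W
      symm := ⟨fun v w h => ⟨h.1.symm, h.2.2, h.2.1⟩⟩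
      loopless := ⟨fun v h => H.loopless.irrefl v h.1⟩ }
  have h1 : {e : Sym2 V | e ∈ H.edgeSet ∧ ∀ x ∈ e, x ∈ W} = ↑(H'.edgeFinset) := by
    ext e
    rw [SimpleGraph.coe_edgeFinset]
    induction e with
    | _ a b =>
      simp only [Set.mem_ofPred_eq, SimpleGraph.mem_edgeSet, Sym2.mem_iff, forall_eq_or_imp,
        forall_eq]
      exact Iff.rfl
  have h2 : eIn H W = H'.edgeFinset.card := by
    unfold eIn
    rw [h1, Set.ncard_coe_finset]
  have h3 := H'.sum_degrees_eq_twice_card_edges
  have h4 : ∑ v, H'.degree v ≤ ∑ v ∈ W, 4 := by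
    rw [← Finset.sum_subset (Finset.subset_univ W)]
    · refine Finset.sum_le_sum fun v _ => ?_
      refine le_trans ?_ (hH v)
      rw [← SimpleGraph.card_neighborFinset_eq_degree]
      refine Finset.card_le_card ?_
      intro w hw
      rw [SimpleGraph.mem_neighborFinset] at hw
      simpa using hw.1
    · intro v _ hv
      rw [← SimpleGraph.card_neighborFinset_eq_degree, Finset.card_eq_zero]
      rw [Finset.eq_empty_iff_forall_notMem]
      intro w hw
      rw [SimpleGraph.mem_neighborFinset] at hw
      exact hv hw.2.1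
  rw [Finset.sum_const, smul_eq_mul] at h4
  omega

theorem small (h : St_orient) : St_small := by
  intro V _ G hdg
  obtain ⟨F, hF, ha⟩ := exists_min_cov G hdg
  choose a hae haF using ha
  obtain ⟨OH, hOH, houtH⟩ := h V inferInstance (del G F) 2 (eIn_le _ (dg_del G hdg F hF))
  have hOHadj : ∀ v w, OH v w → G.Adj v w ∧ s(v, w) ∉ F := fun v w hvw =>
    (hOH.adj v w).2 (Or.inl hvw)
  have hFadj : ∀ v w, s(v, w) ∈ F → G.Adj v w := fun v w hvw => hF.1 _ hvw
  let O : V → V → Prop := fun v w => OH v w ∨ (s(v, w) ∈ F ∧ a s(v, w) = v)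
  have ho : IsOrient G O := by
    refine ⟨fun v w => ⟨fun hvw => ?_, fun hvw => ?_⟩, ?_⟩
    · by_cases hm : s(v, w) ∈ F
      · rcases Sym2.mem_iff.1 (hae s(v, w)) with h1 | h1
        · exact Or.inl (Or.inr ⟨hm, h1⟩)
        · exact Or.inr (Or.inr ⟨by rwa [Sym2.eq_swap], by rwa [Sym2.eq_swap]⟩)
      · rcases (hOH.adj v w).1 ⟨hvw, hm⟩ with h1 | h1
        · exact Or.inl (Or.inl h1)
        · exact Or.inr (Or.inl h1)
    · rcases hvw with (h1 | h1) | (h1 | h1)
      · exact (hOHadj v w h1).1
      · exact hFadj v w h1.1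
      · exact (hOHadj w v h1).1.symm
      · exact (hFadj w v h1.1).symm
    · intro v w hvw hwv
      rcases hvw with h1 | h1 <;> rcases hwv with h2 | h2
      · exact hOH.asym v w h1 h2
      · exact (hOHadj v w h1).2 (by rw [Sym2.eq_swap]; exact h2.1)
      · exact (hOHadj w v h2).2 (by rw [Sym2.eq_swap]; exact h1.1)
      · have h3 : a s(v, w) = w := by rw [Sym2.eq_swap]; exact h2.2
        have h4 : v = w := h1.2.symm.trans h3
        exact (hFadj v w h1.1).ne h4
  let τ : V → Option V := fun v =>
    if h : ∃ w, s(v, w) ∈ F ∧ a s(v, w) = v then some h.choose else none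
  have hτs : ∀ v w, τ v = some w → s(v, w) ∈ F ∧ a s(v, w) = v := by
    intro v w hvw
    by_cases hex : ∃ w, s(v, w) ∈ F ∧ a s(v, w) = v
    · simp only [τ, dif_pos hex] at hvw
      have hw := Option.some.inj hvw
      rw [← hw]
      exact hex.choose_spec
    · simp only [τ, dif_neg hex] at hvw
      exact absurd hvw (by simp)
  have hτn : ∀ v, τ v = none → ∀ w, ¬ (s(v, w) ∈ F ∧ a s(v, w) = v) := by
    intro v hv w hw
    have hex : ∃ w, s(v, w) ∈ F ∧ a s(v, w) = v := ⟨w, hw⟩
    simp only [τ, dif_pos hex] at hv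
    exact absurd hv (by simp)
  have hspO : ∀ v x, τ x = some v → O x v := fun v x hx => Or.inr (hτs x v hx)
  have hsp2 : ∀ v, sp τ v ≤ 2 := by
    intro v
    refine le_trans ?_ (hF.2.2 v)
    unfold sp
    refine Finset.card_le_card_of_injOn (fun x => s(x, v)) ?_ ?_
    · intro x hx
      have hx' : τ x = some v := by simpa using hx
      rw [Finset.mem_coe, Finset.mem_filter]
      exact ⟨(hτs x v hx').1, Sym2.mem_mk_right _ _⟩
    · intro x _ y _ hxy
      have : s(x, v) = s(y, v) := hxy
      exact Sym2.congr_left.1 this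
  have hspind : ∀ v, sp τ v ≤ ind O v := by
    intro v
    refine Finset.card_le_card ?_
    intro x hx
    have hx' : τ x = some v := by simpa using hx
    simpa using hspO v x hx'
  -- the special vertices
  have hsome : ∀ v w, τ v = some w → outd O v = outd OH v + 1 ∧ sp τ v = 0 := by
    intro v w hvw
    obtain ⟨hm, hav⟩ := hτs v w hvw
    have huniq : ∀ e' ∈ F, v ∈ e' → e' = s(v, w) := by
      intro e' he' hve'
      refine haF s(v, w) hm e' he' ?_
      rwa [hav]
    constructor
    · have h1 : outd O v = (insert w (univ.filter (fun x => OH v x))).card := by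
        unfold outd
        congr 1
        ext x
        simp only [Finset.mem_filter, Finset.mem_univ, true_and, Finset.mem_insert]
        constructor
        · rintro (h1 | h1)
          · exact Or.inr h1
          · have := huniq s(v, x) h1.1 (Sym2.mem_mk_left _ _)
            exact Or.inl (Sym2.congr_right.1 this)
        · rintro (h1 | h1)
          · rw [h1]
            exact Or.inr ⟨hm, hav⟩
          · exact Or.inl h1
      rw [h1, Finset.card_insert_of_notMem]
      · rfl
      intro hw
      simp only [Finset.mem_filter, Finset.mem_univ, true_and] at hw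
      exact (hOHadj v w hw).2 hm
    · unfold sp
      rw [Finset.card_eq_zero, Finset.eq_empty_iff_forall_notMem]
      intro x hx
      have hx' : τ x = some v := by simpa using hx
      obtain ⟨hm', hax⟩ := hτs x v hx'
      have h1 := huniq s(x, v) hm' (Sym2.mem_mk_right _ _)
      rw [h1, hav] at hax
      rw [← hax] at hm'
      exact (hFadj v v hm').ne rfl
  have hnone : ∀ v, τ v = none → outd O v = outd OH v := by
    intro v hv
    unfold outd
    congr 1
    ext x
    simp only [Finset.mem_filter, Finset.mem_univ, true_and]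
    constructor
    · rintro (h1 | h1)
      · exact h1
      · exact absurd h1 (hτn v hv x)
    · exact fun h1 => Or.inl h1
  refine ⟨O, τ, ho, fun v w hvw => hspO w v hvw, ?_, ?_⟩
  · intro v
    have h1 := hsp2 v
    have h2 := hspind v
    cases hv : τ v with
    | none =>
      unfold RR mm
      rw [if_pos hv]
      omega
    | some w =>
      rw [(hsome v w hv).2]
      exact Nat.zero_le _
  · intro v
    have h1 := orient_dg ho v
    have h2 := hdg v
    have h3 := houtH v
    cases hv : τ v with
    | none =>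
      have h4 := hnone v hv
      unfold RR mm
      rw [if_pos hv]
      omega
    | some w =>
      obtain ⟨h4, h5⟩ := hsome v w hv
      have hne : τ v ≠ none := by rw [hv]; simp
      unfold RR mm
      rw [if_neg hne, h5, Nat.max_zero]
      omega

end

end MP_482ee1
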