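import Pool.Agent.R42.UB.Defs

/-! MP_482ee1_co: auxiliary lemmas for UB-LARGE and UB-SMALL. -/

set_option autoImplicit false

open Finset Classical

namespace MP_482ee1

noncomputable section

lemma orient_dg {V : Type} [Fintype V] {G : SimpleGraph V} {O : V → V → Prop}
    (ho : IsOrient G O) (v : V) : outd O v + ind O v = dg G v := by
  unfold outd ind dg
  rw [← Finset.card_union_of_disjoint]
  · congr 1
    ext w
    simp only [Finset.mem_union, Finset.mem_filter, Finset.mem_univ, true_and]
    exact (ho.adj v w).symm
  · rw [Finset.disjoint_left]
    intro w h1 h2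
    simp only [Finset.mem_filter, Finset.mem_univ, true_and] at h1 h2
    exact ho.asym v w h1 h2

end

end MP_482ee1
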